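import Pool.Agent.Helper1.MT.Defs

/-!
# Project MT, second part: uniform versions, spacing up to a constant times `log x`
-/

set_option autoImplicit false

open Finset
open scoped ArithmeticFunction.vonMangoldt

namespace Pool.Agent.Helper1.MT

open Pool.Agent.Helper18.BV (wt IsWt)

/-- `W` is divisible by all primes below `D0` and its other prime factors have a bounded sum of
reciprocals. -/
structure Reg (D0 W : ℕ) : Prop where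
  pos : 0 < W
  small : ∀ p : ℕ, p.Prime → p < D0 → p ∣ W
  few : ∑ p ∈ W.primeFactors.filter (fun p => D0 ≤ p), 1 / (p : ℝ) ≤ 1

/-- MU-F: squarefree integers coprime to `W`, uniformly in `W`. -/
def SqfreeSumU : Prop :=
  ∃ C : ℝ, 0 < C ∧ ∀ W : ℕ, 0 < W → ∃ c : ℝ, (W.totient : ℝ) / (4 * W) ≤ c ∧
    c ≤ (W.totient : ℝ) / W ∧ ∀ z : ℝ, 1 ≤ z →
      |∑ d ∈ (Icc 1 ⌊z⌋₊).filter (fun d => Squarefree d ∧ d.Coprime W), 1 / (d : ℝ) -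
        c * Real.log z| ≤ C * ((W : ℝ) / W.totient) * (1 + Real.log W)

/-- MU-A: the one-dimensional sums, uniformly in `W`. -/
def OneDimU : Prop :=
  ∀ (K J D0 : ℕ) (A : ℝ), 0 < K → 10 * 2 ^ J ≤ 8 * K * (J + 2) → (K + 2) ^ 10 ≤ D0 → 0 < A →
    ∃ X0 : ℝ, 3 ≤ X0 ∧ ∀ x : ℝ, X0 ≤ x → ∀ W : ℕ, Reg D0 W → (W : ℝ) ≤ Real.log x ^ A →
    ∃ c : ℝ, (W.totient : ℝ) / (4 * W) ≤ c ∧ c ≤ 1 ∧ 1 / (32 * (D0 : ℝ)) ≤ c ∧
      Good K (wp (lev x) W) (tp (lev x) W) (gam K J) (2 ^ J / Kp K J) (2 / D0) ∧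
      ((K : ℝ) - 1) * M1 (wp (lev x) W) (tp (lev x) W) (gam K J) ≤
        1 / 10 * (1 - 2 ^ J / Kp K J) * B1 (wp (lev x) W) (gam K J) ∧
      9 / 10 * (J + 2 : ℝ) / (2 * Kp K J) * (c * Real.log (lev x)) ≤
        A1 (wp (lev x) W) (gam K J) ∧
      A1 (wp (lev x) W) (gam K J) ≤
        11 / 10 * (J + 2 : ℝ) / (2 * Kp K J) * (c * Real.log (lev x)) ∧
      9 / 10 / Kp K J * (c * Real.log (lev x)) ≤ B1 (wp (lev x) W) (gam K J) ∧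
      B1 (wp (lev x) W) (gam K J) ≤ 16 / 10 / Kp K J * (c * Real.log (lev x)) ∧
      9 / 10 * (c * Real.log (lev x)) ≤ V0 (wp (lev x) W) (tp (lev x) W)

/-- MU-N1: the sieve sum over all integers, uniformly in `W`. At the prime `p` only the colours in
`a p` are allowed; `p` does not divide the differences of their shifts. -/
def SumGen : Prop :=
  ∀ (κ : Type) [Fintype κ] [DecidableEq κ] (D0 : ℕ) (A : ℝ),
    (Fintype.card κ + 2) ^ 10 ≤ D0 → 0 < A → ∃ X0 : ℝ, 3 ≤ X0 ∧ ∀ x : ℝ, X0 ≤ x →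
    ∀ (h : κ → ℕ) (W v : ℕ), 0 < W → (∀ p : ℕ, p.Prime → p < D0 → p ∣ W) →
    (W : ℝ) ≤ Real.log x ^ A → ∀ a : PS (lev x) W → Finset κ,
    (∀ p, ∀ i ∈ a p, ∀ i' ∈ a p, i ≠ i' → ¬ ((p : ℕ) : ℤ) ∣ (h i : ℤ) - h i') →
    ∀ y : (PS (lev x) W → Option κ) → ℝ, (∀ c, |y c| ≤ lev x) →
      (∀ c, y c ≠ 0 → T (tp (lev x) W) (supp c) ≤ 3) →
      (∀ c, y c ≠ 0 → ∀ p i, c p = some i → i ∈ a p) →
      |∑ n ∈ NS x W v, (1 / (n : ℝ)) * sw h (lam (wp (lev x) W) y) n -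
        (Real.log x / (2 * W)) * Qf (fun p => pr κ (wp (lev x) W p)) (lam (wp (lev x) W) y)| ≤
        1 / Real.log x ^ A

/-- MU-B: the error terms for primes, uniformly in `W`. -/
def BVErrorU : Prop :=
  ∀ g : ℝ → ℝ, IsWt g → ∀ (k : ℕ) (A : ℝ), 0 < A → ∃ X0 : ℝ, 3 ≤ X0 ∧
    ∀ x : ℝ, X0 ≤ x → ∀ W : ℕ, 0 < W → (W : ℝ) ≤ Real.log x ^ A →
    ∀ c : ℕ → ℕ, (∀ d, Nat.Coprime (c d) d) →
      ∑ U ∈ (PS (lev x) W).powerset.filter (fun U => ∏ p ∈ U, p ≤ lev x ^ 2),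
        (k : ℝ) ^ U.card *
        |∑ n ∈ (Icc 1 ⌊x⌋₊).filter (fun n => n ≡ c (W * ∏ p ∈ U, p) [MOD (W * ∏ p ∈ U, p)]),
            Λ n * wt g x n -
          (1 / ((W * ∏ p ∈ U, p : ℕ).totient : ℝ)) * ∑ n ∈ Icc 1 ⌊x⌋₊, Λ n * wt g x n| ≤
        1 / Real.log x ^ A

/-- MU-N2: the sieve sum over the `n` such that `n + h m` is prime, uniformly. -/
def SumPrimeU : Prop :=
  ∃ c0 : ℝ, 0 < c0 ∧ ∀ (κ : Type) [Fintype κ] [DecidableEq κ] (D0 : ℕ) (A : ℝ),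
    (Fintype.card κ + 2) ^ 10 ≤ D0 → 0 < A → ∃ X0 : ℝ, 3 ≤ X0 ∧ ∀ x : ℝ, X0 ≤ x →
    ∀ (h : κ → ℕ) (W v : ℕ), Setup D0 h W v → (W : ℝ) ≤ Real.log x ^ A →
    (∀ i, (h i : ℝ) ≤ Real.log x ^ A) → ∀ m : κ,
    ∀ y : (PS (lev x) W → Option κ) → ℝ, (∀ c, |y c| ≤ 1) →
      (∀ c, y c ≠ 0 → T (tp (lev x) W) (supp c) ≤ 1) →
      (c0 / (W.totient : ℝ)) *
        Qf (fun p => prm m (wp' (lev x) W p)) (lam (wp (lev x) W) y) - 1 / Real.log x ^ A ≤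
      ∑ n ∈ (NS x W v).filter (fun n => (n + h m).Prime),
        (1 / (n : ℝ)) * sw h (lam (wp (lev x) W) y) n

/-- MU-S: the majorant with one additional colour `none` (for the primes outside the clusters).
The points in `bad` must not have the additional colour. -/
def StarMajorant : Prop :=
  ∀ (ι κ : Type) [Fintype ι] [Fintype κ] [DecidableEq ι] [DecidableEq κ] (w t : ι → ℝ)
    (γ : Finset ι → ℝ) (τ η : ℝ), Good (Fintype.card κ) w t γ τ η → ∀ bad : Finset ι,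
    ∃ y' : (ι → Option (Option κ)) → ℝ,
      (∀ c : ι → Option κ, lam w y' (fun p => (c p).map some) = lam w (yw t γ) c) ∧
      (∀ c, y' c ≠ 0 → T t (supp c) ≤ 2 ∧ ∀ p ∈ bad, c p ≠ some none) ∧
      (∀ c, |y' c| ≤ 1) ∧
      (∑ c : ι → Option (Option κ), ws w (supp c) * y' c ^ 2) * V0 w t ≤
        2 * B1 w γ ^ (Fintype.card κ) * ∏ p ∈ bad, (1 + w p)

/-- MU-Y: the average of the singular factors. -/
def SingAvg : Prop :=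
  ∀ K : ℕ, ∃ C : ℝ, 0 < C ∧ ∀ (Y : ℕ) (h : Fin K → ℕ), 1 ≤ Y → (∀ i, h i ≤ Y) →
    ∑ j ∈ (range (Y + 1)).filter (fun j => ∀ i, h i ≠ j),
      ∏ p ∈ (∏ i, ((h i : ℤ) - j).natAbs).primeFactors, (1 + 1 / (p : ℝ)) ≤ C * Y

/-- MU-C: the shifts with spacing `E`, in the interval `[D, 2 D]`. -/
def ShiftsU : Prop :=
  ∀ M κ0 D0 : ℕ, 0 < M → 0 < κ0 → (M * κ0 + 2) ^ 10 ≤ D0 → ∃ Q D1 : ℕ, 0 < Q ∧ κ0 < D1 ∧
    ∀ D : ℕ, D1 ≤ D → ∃ E W v : ℕ, D ≤ E ∧ E ≤ 2 * D ∧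
      Setup D0 (fun a : Fin M × Fin κ0 => Q * (a.1.val * E + a.2.val)) W v ∧ Reg D0 W ∧
      W ≤ D ^ D1

/-- The main theorem on blocks, uniformly for spacings up to a constant times `log x`. -/
def BlocksLog : Prop :=
  ∀ η : ℝ, 0 < η → ∃ δ : ℝ, 0 < δ ∧ ∃ M0 : ℕ, ∀ M : ℕ, M0 ≤ M → ∃ (B0 : ℕ) (c x0 : ℝ), 0 < c ∧
    ∀ x : ℝ, x0 ≤ x → ∀ D : ℕ, 2 * B0 < D → (D : ℝ) ≤ c * Real.log x →
    ∃ n E : ℕ, x ^ (1 / 2 : ℝ) ≤ n ∧ (n : ℝ) ≤ x ∧ D ≤ E ∧ E ≤ B0 * D ∧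
      (∀ q : ℕ, q.Prime → n ≤ q → q < n + M * E → ∃ i < M, n + i * E ≤ q ∧ q ≤ n + i * E + B0) ∧
      δ * M ≤ (((range M).filter (fun i => pc (n + i * E) (n + i * E + B0) = 1)).card : ℝ) ∧
      (((range M).filter (fun i => 2 ≤ pc (n + i * E) (n + i * E + B0))).card : ℝ) ≤
        η * ((range M).filter (fun i => pc (n + i * E) (n + i * E + B0) = 1)).card

/-- Szemeredi's theorem. -/
def Szemeredi : Prop :=
  ∀ (k : ℕ) (δ : ℝ), 0 < δ → ∃ N0 : ℕ, ∀ N : ℕ, N0 ≤ N → ∀ A : Finset ℕ, A ⊆ range N →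
    δ * N ≤ A.card → ∃ a d : ℕ, 0 < d ∧ ∀ i < k, a + i * d ∈ A

/-- MU-K: the final statement. Among boundedly many consecutive primes near `x` (on the
logarithmic scale) there are `k + 1` disjoint groups of `r + 1` consecutive primes that are, up to
a bounded error, translates of each other, the translations being in arithmetic progression; all
the differences are between `D` and `B D`, for any `D` up to a constant times `log x`. -/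
def Patterns : Prop :=
  ∀ r k : ℕ, ∃ (B : ℕ) (c x0 : ℝ), 0 < c ∧ ∀ x : ℝ, x0 ≤ x → ∀ D : ℕ, B ≤ D →
    (D : ℝ) ≤ c * Real.log x → ∃ (i : ℕ → ℕ) (d : ℕ) (G : ℕ → ℕ),
      x ^ (1 / 2 : ℝ) ≤ P (i 0) ∧ (P (i k + r) : ℝ) ≤ 2 * x ∧
      (∀ s < k, i s + r < i (s + 1)) ∧ i k + r ≤ i 0 + B ∧
      D ≤ d ∧ d ≤ B * D ∧ (∀ j < r, D ≤ G j ∧ G j ≤ B * D) ∧
      ∀ s ≤ k, ∀ j ≤ r, |(P (i s + j) : ℤ) - (P (i 0) + s * d + ∑ l ∈ range j, (G l : ℤ))| ≤ B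

end Pool.Agent.Helper1.MT
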