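import Mathlib
import Pool.Agent.Helper18.BV.Defs

/-!
# Project MT: a Maynard-Tao theorem with a positive proportion of clusters (MP_02009f_nt)

Colourings of a finite set of primes by a finite set `κ` of colours replace tuples of pairwise
coprime squarefree divisors.
-/

set_option autoImplicit false

open Finset
open scoped ArithmeticFunction.vonMangoldt

namespace Pool.Agent.Helper1.MT

open Pool.Agent.Helper18.BV (wt IsWt)

section Abstract

variable {ι κ : Type} [Fintype ι] [Fintype κ] [DecidableEq ι] [DecidableEq κ]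

/-- `c` is a restriction of `σ`. -/
def Le (c σ : ι → Option κ) : Prop := ∀ p, c p = none ∨ c p = σ p

instance (c σ : ι → Option κ) : Decidable (Le c σ) := by unfold Le; infer_instance

/-- The support of a colouring. -/
def supp (c : ι → Option κ) : Finset ι := univ.filter (fun p => c p ≠ none)

/-- The set of points of colour `i`. -/
def cls (c : ι → Option κ) (i : κ) : Finset ι := univ.filter (fun p => c p = some i)

/-- The weight of a finite set. -/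
def ws (w : ι → ℝ) (S : Finset ι) : ℝ := ∏ p ∈ S, w p

/-- Local probabilities: every colour has probability `w`. -/
def pr (κ : Type) [Fintype κ] (w : ℝ) : Option κ → ℝ
  | none => 1 - Fintype.card κ * w
  | some _ => w

/-- Local probabilities without the colour `m`. -/
def prm (m : κ) (w : ℝ) : Option κ → ℝ
  | none => 1 - ((Fintype.card κ : ℝ) - 1) * w
  | some i => if i = m then 0 else w

/-- The local factor of the inverse transform (`λ` in terms of `y`). -/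
def inv (w : ℝ) : Option κ → Option κ → ℝ
  | none, none => 1
  | none, some _ => -w
  | some _, none => 0
  | some i, some j => if i = j then 1 else 0

/-- The sieve weights `λ` in terms of `y`. -/
def lam (w : ι → ℝ) (y : (ι → Option κ) → ℝ) (c : ι → Option κ) : ℝ :=
  ∑ c' : ι → Option κ, (∏ p, inv (w p) (c p) (c' p)) * y c'

/-- The local factor of the transform for primes. -/
def ker (m : κ) (w w' : ℝ) : Option κ → Option κ → ℝ
  | none, none => 1
  | none, some j => if j = m then -w else w' - w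
  | some _, none => 0
  | some i, some j => if i = j then 1 else 0

/-- The value at `c` of the transform for primes. -/
def ym (m : κ) (w w' : ι → ℝ) (y : (ι → Option κ) → ℝ) (c : ι → Option κ) : ℝ :=
  ∑ c' : ι → Option κ, (∏ p, ker m (w p) (w' p) (c p) (c' p)) * y c'

/-- The quadratic form of the sieve: expectation of `(∑_{c ≤ σ} f c) ^ 2`. -/
def Qf (P : ι → Option κ → ℝ) (f : (ι → Option κ) → ℝ) : ℝ :=
  ∑ σ : ι → Option κ, (∏ p, P p (σ p)) *
    (∑ c ∈ univ.filter (fun c : ι → Option κ => Le c σ), f c) ^ 2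

/-- The size of a set. -/
def T (t : ι → ℝ) (S : Finset ι) : ℝ := ∑ p ∈ S, t p

/-- `∑_S γ(S) w(S)`. -/
noncomputable def A1 (w : ι → ℝ) (γ : Finset ι → ℝ) : ℝ := ∑ S : Finset ι, γ S * ws w S

/-- `∑_S γ(S)² w(S)`. -/
noncomputable def B1 (w : ι → ℝ) (γ : Finset ι → ℝ) : ℝ := ∑ S : Finset ι, γ S ^ 2 * ws w S

/-- `∑_S γ(S)² T(S) w(S)`. -/
noncomputable def M1 (w t : ι → ℝ) (γ : Finset ι → ℝ) : ℝ :=
  ∑ S : Finset ι, γ S ^ 2 * T t S * ws w S

/-- `∑_{T(S) ≤ 1} w(S)`. -/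
noncomputable def V0 (w t : ι → ℝ) : ℝ :=
  ∑ S ∈ (univ : Finset (Finset ι)).filter (fun S => T t S ≤ 1), ws w S

/-- The choice of `y`. -/
noncomputable def yw (t : ι → ℝ) (γ : Finset ι → ℝ) (c : ι → Option κ) : ℝ :=
  (-1) ^ (supp c).card * (if T t (supp c) ≤ 1 then ∏ i : κ, γ (cls c i) else 0)

/-- Assumptions on a truncation function `γ` on finite sets: `t` is the size function,
`w` are the weights, `K` the number of colours, `η` bounds the sum of the squares of the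
weights. -/
structure Good (K : ℕ) (w t : ι → ℝ) (γ : Finset ι → ℝ) (τ η : ℝ) : Prop where
  w_nonneg : ∀ p, 0 ≤ w p
  w_le : ∀ p, 4 * (K + 1 : ℝ) * w p ≤ 1
  t_nonneg : ∀ p, 0 ≤ t p
  g_nonneg : ∀ S, 0 ≤ γ S
  g_le : ∀ S, γ S ≤ 1
  g_anti : ∀ S S', S ⊆ S' → γ S' ≤ γ S
  g_supp : ∀ S, γ S ≠ 0 → T t S ≤ τ
  sq : ∑ p, w p ^ 2 ≤ η
  eta : 1000 * (K : ℝ) ^ 2 * η ≤ 1
  tau_nonneg : 0 ≤ τ
  tau_le : τ ≤ 1 / 10

end Abstract

/-! ### Abstract modules -/

/-- MT-T: sums over colourings are at most sums over tuples of sets. -/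
def TupleSum : Prop :=
  ∀ (ι κ : Type) [Fintype ι] [Fintype κ] [DecidableEq ι] [DecidableEq κ]
    (G : κ → Finset ι → ℝ), (∀ i S, 0 ≤ G i S) →
    ∑ c : ι → Option κ, ∏ i, G i (cls c i) ≤ ∏ i, ∑ S : Finset ι, G i S

/-- MT-G1: upper bound for the quadratic form over all integers. -/
def GramUpper : Prop :=
  ∀ (ι κ : Type) [Fintype ι] [Fintype κ] [DecidableEq ι] [DecidableEq κ] (w : ι → ℝ)
    (y : (ι → Option κ) → ℝ), (∀ p, 0 ≤ w p) → (∀ p, Fintype.card κ * w p ≤ 1) →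
    Qf (fun p => pr κ (w p)) (lam w y) ≤ ∑ c : ι → Option κ, ws w (supp c) * y c ^ 2

/-- MT-G2: lower bound for the quadratic form over primes. -/
def GramLower : Prop :=
  ∀ (ι κ : Type) [Fintype ι] [Fintype κ] [DecidableEq ι] [DecidableEq κ] (w w' : ι → ℝ) (m : κ)
    (y : (ι → Option κ) → ℝ), (∀ p, 0 ≤ w' p) → (∀ p, Fintype.card κ * w' p ≤ 1) →
    ∑ c ∈ univ.filter (fun c : ι → Option κ => cls c m = ∅),
      (∏ p ∈ supp c, w' p * (1 - ((Fintype.card κ : ℝ) - 1) * w' p)) * ym m w w' y c ^ 2 ≤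
      Qf (fun p => prm m (w' p)) (lam w y)

/-- MT-L: the main term for primes. -/
def LowerMain : Prop :=
  ∀ (ι κ : Type) [Fintype ι] [Fintype κ] [DecidableEq ι] [DecidableEq κ] (w w' t : ι → ℝ)
    (γ : Finset ι → ℝ) (τ η : ℝ), Good (Fintype.card κ) w t γ τ η →
    (∀ p, w p ≤ w' p) → (∀ p, w' p - w p ≤ 2 * w p ^ 2) →
    ((Fintype.card κ : ℝ) - 1) * M1 w t γ ≤ 1 / 10 * (1 - τ) * B1 w γ →
    ∀ m : κ, 1 / 2 * (A1 w γ ^ 2 * B1 w γ ^ (Fintype.card κ - 1)) ≤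
      ∑ c ∈ univ.filter (fun c : ι → Option κ => cls c m = ∅),
        (∏ p ∈ supp c, w' p * (1 - ((Fintype.card κ : ℝ) - 1) * w' p)) *
          ym m w w' (yw t γ) c ^ 2

/-- MT-P: the majorant for two colours. -/
def PairMajorant : Prop :=
  ∀ (ι κ : Type) [Fintype ι] [Fintype κ] [DecidableEq ι] [DecidableEq κ] (w t : ι → ℝ)
    (γ : Finset ι → ℝ) (τ η : ℝ), Good (Fintype.card κ) w t γ τ η →
    ∀ m m' : κ, m ≠ m' → ∃ y' : (ι → Option κ) → ℝ,
      (∀ c : ι → Option κ, cls c m = ∅ → cls c m' = ∅ → lam w y' c = lam w (yw t γ) c) ∧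
      (∀ c, y' c ≠ 0 → T t (supp c) ≤ 3) ∧
      (∀ c, |y' c| ≤ A1 w γ ^ 2) ∧
      (∑ c : ι → Option κ, ws w (supp c) * y' c ^ 2) * V0 w t ^ 2 ≤
        4 * (A1 w γ ^ 4 * B1 w γ ^ (Fintype.card κ - 2))

/-- MT-N0: from a distribution of weights to the quadratic form. `join c c'` is a common extension
of compatible colourings. -/
def join {ι κ : Type} (c c' : ι → Option κ) : ι → Option κ :=
  fun p => if (c p).isSome then c p else c' p

/-- Two colourings are compatible: they agree wherever both are defined. -/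
def Compat {ι κ : Type} (c c' : ι → Option κ) : Prop :=
  ∀ p, c p = none ∨ c' p = none ∨ c p = c' p

/-- MT-N0: if the probability that `c ≤ σ(n)` is close to a product, then the sieve sum is close
to the quadratic form. -/
def Expand : Prop :=
  ∀ (ι κ : Type) [Fintype ι] [Fintype κ] [DecidableEq ι] [DecidableEq κ]
    (P : ι → Option κ → ℝ) (f : (ι → Option κ) → ℝ) (F : Finset ℕ) (ν : ℕ → ℝ)
    (σ : ℕ → ι → Option κ) (X : ℝ) (E : (ι → Option κ) → ℝ),
    (∀ p, ∑ a : Option κ, P p a = 1) →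
    (∀ c c', f c ≠ 0 → f c' ≠ 0 → Compat c c' →
      |∑ n ∈ F.filter (fun n => Le (join c c') (σ n)), ν n -
        X * ∏ p ∈ supp (join c c'), P p (join c c' p)| ≤ E (join c c')) →
    |∑ n ∈ F, ν n * (∑ c ∈ univ.filter (fun c : ι → Option κ => Le c (σ n)), f c) ^ 2 -
      X * Qf P f| ≤
      ∑ c : ι → Option κ, ∑ c' : ι → Option κ,
        (open Classical in if Compat c c' then |f c| * |f c'| * E (join c c') else 0)

/-! ### Arithmetic modules -/

/-- The primes up to `R` that do not divide `W`. -/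
def PS (R W : ℕ) : Finset ℕ := (range (R + 1)).filter (fun p => p.Prime ∧ ¬ p ∣ W)

/-- The weights `1/p`. -/
noncomputable def wp (R W : ℕ) (p : PS R W) : ℝ := 1 / ((p : ℕ) : ℝ)

/-- The weights `1/(p-1)`. -/
noncomputable def wp' (R W : ℕ) (p : PS R W) : ℝ := 1 / (((p : ℕ) : ℝ) - 1)

/-- The sizes `log p / log R`. -/
noncomputable def tp (R W : ℕ) (p : PS R W) : ℝ := Real.log ((p : ℕ) : ℝ) / Real.log R

/-- `p ∣ n + h i` whenever `p` has colour `i`. -/
def Dv {κ : Type} {R W : ℕ} (h : κ → ℕ) (c : PS R W → Option κ) (n : ℕ) : Prop :=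
  ∀ p i, c p = some i → (p : ℕ) ∣ n + h i

/-- Admissible data: `h` are the shifts, `v` modulo `W` the class of `n`, all primes below `D0`
and all prime factors of differences of the shifts divide `W`. -/
structure Setup {κ : Type} (D0 : ℕ) (h : κ → ℕ) (W v : ℕ) : Prop where
  W_pos : 0 < W
  small : ∀ p : ℕ, p.Prime → p < D0 → p ∣ W
  diff : ∀ i j, i ≠ j → ∀ p : ℕ, p.Prime → (p : ℤ) ∣ (h i : ℤ) - h j → p ∣ W
  inj : Function.Injective h
  cop : ∀ i, Nat.Coprime (v + h i) W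

/-- The level of the sieve. -/
noncomputable def lev (x : ℝ) : ℕ := ⌊x ^ (1 / 81 : ℝ)⌋₊

/-- The integers `n` in `(√x, x]` with `n ≡ v` modulo `W`. -/
noncomputable def NS (x : ℝ) (W v : ℕ) : Finset ℕ :=
  (Ioc ⌊x ^ (1 / 2 : ℝ)⌋₊ ⌊x⌋₊).filter (fun n => n ≡ v [MOD W])

/-- The sieve weight of `n`. -/
noncomputable def sw {κ : Type} [Fintype κ] [DecidableEq κ] {R W : ℕ} (h : κ → ℕ)
    (f : (PS R W → Option κ) → ℝ) (n : ℕ) : ℝ := by
  classical exact (∑ c ∈ univ.filter (fun c : PS R W → Option κ => Dv h c n), f c) ^ 2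

/-- MT-B: the error terms for primes in arithmetic progressions, weighted. -/
def BVError : Prop :=
  ∀ g : ℝ → ℝ, IsWt g → ∀ (k W : ℕ), 0 < W → ∀ A : ℝ, 0 < A → ∃ X0 : ℝ, 3 ≤ X0 ∧
    ∀ x : ℝ, X0 ≤ x → ∀ c : ℕ → ℕ, (∀ d, Nat.Coprime (c d) d) →
      ∑ U ∈ (PS (lev x) W).powerset.filter (fun U => ∏ p ∈ U, p ≤ lev x ^ 2),
        (k : ℝ) ^ U.card *
        |∑ n ∈ (Icc 1 ⌊x⌋₊).filter (fun n => n ≡ c (W * ∏ p ∈ U, p) [MOD (W * ∏ p ∈ U, p)]),
            Λ n * wt g x n -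
          (1 / ((W * ∏ p ∈ U, p : ℕ).totient : ℝ)) * ∑ n ∈ Icc 1 ⌊x⌋₊, Λ n * wt g x n| ≤
        1 / Real.log x ^ A

/-- MT-N1: the sieve sum over all integers. -/
def SumAll : Prop :=
  ∀ (κ : Type) [Fintype κ] [DecidableEq κ] (D0 : ℕ) (h : κ → ℕ) (W v : ℕ),
    (Fintype.card κ + 2) ^ 10 ≤ D0 → Setup D0 h W v → ∃ X0 : ℝ, 3 ≤ X0 ∧ ∀ x : ℝ, X0 ≤ x →
    ∀ y : (PS (lev x) W → Option κ) → ℝ, (∀ c, |y c| ≤ lev x) →
      (∀ c, y c ≠ 0 → T (tp (lev x) W) (supp c) ≤ 3) →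
      |∑ n ∈ NS x W v, (1 / (n : ℝ)) * sw h (lam (wp (lev x) W) y) n -
        (Real.log x / (2 * W)) * Qf (fun p => pr κ (wp (lev x) W p)) (lam (wp (lev x) W) y)| ≤ 1

/-- MT-N2: the sieve sum over the `n` such that `n + h m` is prime. -/
def SumPrime : Prop :=
  ∃ c0 : ℝ, 0 < c0 ∧ ∀ (κ : Type) [Fintype κ] [DecidableEq κ] (D0 : ℕ) (h : κ → ℕ) (W v : ℕ),
    (Fintype.card κ + 2) ^ 10 ≤ D0 → Setup D0 h W v → ∀ m : κ, ∃ X0 : ℝ, 3 ≤ X0 ∧
    ∀ x : ℝ, X0 ≤ x →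
    ∀ y : (PS (lev x) W → Option κ) → ℝ, (∀ c, |y c| ≤ 1) →
      (∀ c, y c ≠ 0 → T (tp (lev x) W) (supp c) ≤ 1) →
      (c0 / (W.totient : ℝ)) *
        Qf (fun p => prm m (wp' (lev x) W p)) (lam (wp (lev x) W) y) - 1 ≤
      ∑ n ∈ (NS x W v).filter (fun n => (n + h m).Prime),
        (1 / (n : ℝ)) * sw h (lam (wp (lev x) W) y) n

/-- MT-F: squarefree integers coprime to `W`. -/
def SqfreeSum : Prop :=
  ∀ W : ℕ, 0 < W → ∃ c C : ℝ, 0 < c ∧ 0 < C ∧ (W.totient : ℝ) / (4 * W) ≤ c ∧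
    ∀ z : ℝ, 1 ≤ z →
      |∑ d ∈ (Icc 1 ⌊z⌋₊).filter (fun d => Squarefree d ∧ d.Coprime W), 1 / (d : ℝ) -
        c * Real.log z| ≤ C

/-- The number of the colours used in the dyadic step function. -/
def Kp (K J : ℕ) : ℝ := 8 * (K : ℝ) * (J + 2)

/-- The step function `γ`: on sets of size in `(2^(j-1)/K', 2^j/K']` it is `2^(-j)`. -/
noncomputable def gam {R W : ℕ} (K J : ℕ) (S : Finset (PS R W)) : ℝ :=
  (∑ j ∈ range J, if T (tp R W) S ≤ 2 ^ j / Kp K J then (1 / 2 : ℝ) ^ (j + 1) else 0) +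
    if T (tp R W) S ≤ 2 ^ J / Kp K J then (1 / 2 : ℝ) ^ J else 0

/-- MT-A: the one-dimensional sums. -/
def OneDim : Prop :=
  ∀ (K J D0 W : ℕ), 0 < K → 10 * 2 ^ J ≤ 8 * K * (J + 2) → (K + 2) ^ 10 ≤ D0 →
    0 < W → (∀ p : ℕ, p.Prime → p < D0 → p ∣ W) →
    ∃ c : ℝ, 0 < c ∧ (W.totient : ℝ) / (4 * W) ≤ c ∧ ∃ R0 : ℕ, 3 ≤ R0 ∧ ∀ R : ℕ, R0 ≤ R →
      Good K (wp R W) (tp R W) (gam K J) (2 ^ J / Kp K J) (2 / D0) ∧
      ((K : ℝ) - 1) * M1 (wp R W) (tp R W) (gam K J) ≤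
        1 / 10 * (1 - 2 ^ J / Kp K J) * B1 (wp R W) (gam K J) ∧
      9 / 10 * (J + 2 : ℝ) / (2 * Kp K J) * (c * Real.log R) ≤ A1 (wp R W) (gam K J) ∧
      A1 (wp R W) (gam K J) ≤ 11 / 10 * (J + 2 : ℝ) / (2 * Kp K J) * (c * Real.log R) ∧
      9 / 10 / Kp K J * (c * Real.log R) ≤ B1 (wp R W) (gam K J) ∧
      B1 (wp R W) (gam K J) ≤ 16 / 10 / Kp K J * (c * Real.log R) ∧
      9 / 10 * (c * Real.log R) ≤ V0 (wp R W) (tp R W)

/-! ### Main theorem -/

/-- The number of primes in the cluster `i`. -/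
def hits {M κ0 : ℕ} (h : Fin M × Fin κ0 → ℕ) (n : ℕ) (i : Fin M) : ℕ :=
  (univ.filter (fun a : Fin κ0 => (n + h (i, a)).Prime)).card

/-- The number of clusters with exactly one prime. -/
def singles {M κ0 : ℕ} (h : Fin M × Fin κ0 → ℕ) (n : ℕ) : ℕ :=
  (univ.filter (fun i : Fin M => hits h n i = 1)).card

/-- The number of clusters with at least two primes. -/
def multis {M κ0 : ℕ} (h : Fin M × Fin κ0 → ℕ) (n : ℕ) : ℕ :=
  (univ.filter (fun i : Fin M => 2 ≤ hits h n i)).card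

/-- The main theorem: a positive proportion of the clusters contains exactly one prime, and few
contain more than one. -/
def Clusters : Prop :=
  ∀ η : ℝ, 0 < η → ∃ δ : ℝ, 0 < δ ∧ ∃ M0 : ℕ, ∀ M : ℕ, M0 ≤ M → ∃ κ0 D0 : ℕ, 0 < κ0 ∧
    M * κ0 < D0 ∧ ∀ (h : Fin M × Fin κ0 → ℕ) (W v : ℕ), Setup D0 h W v → ∀ N : ℕ, ∃ n : ℕ, N ≤ n ∧
      n ≡ v [MOD W] ∧ δ * M ≤ singles h n ∧ (multis h n : ℝ) ≤ η * singles h n

/-! ### From the main theorem to the consecutive primes -/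

/-- MT-C: the shifts and the congruence class. Outside the clusters there are no primes. -/
def Shifts : Prop :=
  ∀ M κ0 D0 : ℕ, 0 < M → 0 < κ0 → M * κ0 < D0 → ∃ Q : ℕ, 0 < Q ∧ ∀ D : ℕ, κ0 ≤ D →
    ∃ W v : ℕ, Setup D0 (fun a : Fin M × Fin κ0 => Q * (a.1.val * D + a.2.val)) W v ∧
    ∀ n : ℕ, n ≡ v [MOD W] → W ≤ n → ∀ j : ℕ, j ≤ Q * M * D → (n + j).Prime →
      ∃ a : Fin M × Fin κ0, j = Q * (a.1.val * D + a.2.val)

/-- The number of primes in `[a, b]`. -/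
def pc (a b : ℕ) : ℕ := ((Icc a b).filter Nat.Prime).card

/-- The main theorem in terms of short intervals (blocks) `[n + i E, n + i E + B0]`, `i < M`:
`B0` does not depend on the spacing `E`, all the primes between `n` and `n + M E` are in the
blocks, a positive proportion of the blocks contains exactly one prime and few blocks contain
more than one prime. -/
def Blocks : Prop :=
  ∀ η : ℝ, 0 < η → ∃ δ : ℝ, 0 < δ ∧ ∃ M0 : ℕ, ∀ M : ℕ, M0 ≤ M → ∃ B0 : ℕ, ∀ D N : ℕ,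
    ∃ n E : ℕ, N ≤ n ∧ D ≤ E ∧ 2 * B0 < E ∧
      (∀ q : ℕ, q.Prime → n ≤ q → q < n + M * E → ∃ i < M, n + i * E ≤ q ∧ q ≤ n + i * E + B0) ∧
      δ * M ≤ (((range M).filter (fun i => pc (n + i * E) (n + i * E + B0) = 1)).card : ℝ) ∧
      (((range M).filter (fun i => 2 ≤ pc (n + i * E) (n + i * E + B0))).card : ℝ) ≤
        η * ((range M).filter (fun i => pc (n + i * E) (n + i * E + B0) = 1)).card

/-- The `i`-th prime, `i = 0, 1, ...`. -/
noncomputable def P (i : ℕ) : ℕ := Nat.nth Nat.Prime i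

/-- MT-K1: blocks of `r` consecutive prime gaps, all of them large, that are repeated `k` times up
to a bounded error within a bounded number of consecutive gaps. -/
def RepeatedGaps : Prop :=
  ∀ r k : ℕ, ∃ B : ℕ, ∀ D N : ℕ, ∃ n : ℕ, N ≤ n ∧ ∃ G : ℕ → ℕ, (∀ j, D ≤ G j) ∧
    k ≤ ((Ico n (n + B)).filter (fun i => ∀ j < r,
      P (i + j + 1) ≤ P (i + j) + G j + B ∧ P (i + j) + G j ≤ P (i + j + 1) + B)).card

/-- MT-K2: three primes among boundedly many consecutive ones that are in arithmetic progression up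
to a bounded error, with large difference. -/
def ApproxAP : Prop :=
  ∃ B : ℕ, ∀ D N : ℕ, ∃ i j l : ℕ, N ≤ i ∧ i < j ∧ j < l ∧ l ≤ i + B ∧
    P i + D ≤ P j ∧ P i + P l ≤ 2 * P j + B ∧ 2 * P j ≤ P i + P l + B

/-- MT-K3: `k` primes among boundedly many consecutive ones that are in arithmetic progression up
to a small relative error, with large difference. -/
def RelativeAP : Prop :=
  ∀ (k : ℕ) (ε : ℝ), 0 < ε → ∃ B : ℕ, ∀ D N : ℕ, ∃ (s : ℕ → ℕ) (d : ℕ), N ≤ s 0 ∧ D ≤ d ∧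
    (∀ j < k, s j < s (j + 1)) ∧ s k ≤ s 0 + B ∧
    ∀ j < k, |((P (s (j + 1)) : ℝ) - P (s j)) - d| ≤ ε * d

end Pool.Agent.Helper1.MT
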