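import Pool.Agent.Helper1.MT.BlocksLogOf

/-!
# Project MT, part 2: the theorem on blocks with spacing up to a constant times `log x`
-/

set_option autoImplicit false

open Finset Filter

namespace Pool.Agent.Helper1.MT

/-- From the output of the sieve to blocks. -/
theorem to_blocks {M κ0 Q E n B0 : ℕ} (hQ : 0 < Q) (hκE : κ0 ≤ E) (hQB : Q * κ0 ≤ B0)
    (hBE : B0 < E)
    (ho : ∀ j ∈ (range (Q * M * E + 1)).filter
      (fun j => ∀ a : Fin M × Fin κ0, Q * (a.1.val * E + a.2.val) ≠ j), ¬ (n + j).Prime) :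
    (∀ q : ℕ, q.Prime → n ≤ q → q < n + M * (Q * E) →
      ∃ i < M, n + i * (Q * E) ≤ q ∧ q ≤ n + i * (Q * E) + B0) ∧
    (∀ (p : ℕ → Prop) [DecidablePred p],
      ((range M).filter (fun i => p (pc (n + i * (Q * E)) (n + i * (Q * E) + B0)))).card =
      (univ.filter (fun i : Fin M =>
        p (hits (fun a : Fin M × Fin κ0 => Q * (a.1.val * E + a.2.val)) n i))).card) := by
  have hpr : ∀ j : ℕ, j ≤ Q * M * E → (n + j).Prime →
      ∃ a : Fin M × Fin κ0, j = Q * (a.1.val * E + a.2.val) := by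
    intro j hj hjp
    by_contra hcon
    push Not at hcon
    refine ho j ?_ hjp
    rw [mem_filter, mem_range]
    exact ⟨by omega, fun a => (hcon a).symm⟩
  have hEQ : E ≤ Q * E := Nat.le_mul_of_pos_left E hQ
  have hpc : ∀ i (hi : i < M), pc (n + i * (Q * E)) (n + i * (Q * E) + B0) =
      hits (fun a : Fin M × Fin κ0 => Q * (a.1.val * E + a.2.val)) n ⟨i, hi⟩ := by
    intro i hi
    unfold pc hits
    have h1 : ((Icc (n + i * (Q * E)) (n + i * (Q * E) + B0)).filter Nat.Prime) =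
        (univ.filter (fun a : Fin κ0 => (n + Q * (i * E + a.val)).Prime)).image
          (fun a : Fin κ0 => n + Q * (i * E + a.val)) := by
      ext q
      simp only [mem_filter, mem_Icc, mem_image, mem_univ, true_and]
      constructor
      · rintro ⟨⟨h1, h2⟩, h3⟩
        obtain ⟨j, rfl⟩ : ∃ j, q = n + j := ⟨q - n, by
          have : n ≤ q := le_trans (Nat.le_add_right _ _) h1
          omega⟩
        have h4 : i * (Q * E) ≤ j := by omega
        have h5 : j ≤ i * (Q * E) + B0 := by omega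
        have h6 : j ≤ Q * M * E := by
          calc j ≤ i * (Q * E) + B0 := h5
            _ ≤ i * (Q * E) + Q * E := by omega
            _ = (i + 1) * (Q * E) := by ring
            _ ≤ M * (Q * E) := by gcongr; omega
            _ = Q * M * E := by ring
        obtain ⟨a, ha⟩ := hpr j h6 h3
        have h7 : a.1.val = i := by
          have ha2 := a.2.isLt
          rcases Nat.lt_trichotomy a.1.val i with h8 | h8 | h8
          · exfalso
            have e1 : (a.1.val + 1) * E ≤ i * E := Nat.mul_le_mul_right _ h8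
            have e2 : a.1.val * E + a.2.val < i * E := by
              rw [add_mul, one_mul] at e1
              omega
            have e3 : Q * (a.1.val * E + a.2.val) < Q * (i * E) :=
              Nat.mul_lt_mul_of_pos_left e2 hQ
            have e4 : i * (Q * E) = Q * (i * E) := by ring
            omega
          · exact h8
          · exfalso
            have e1 : (i + 1) * E ≤ a.1.val * E := Nat.mul_le_mul_right _ h8
            have e2 : (i + 1) * E ≤ a.1.val * E + a.2.val := by omega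
            have e3 : Q * ((i + 1) * E) ≤ Q * (a.1.val * E + a.2.val) := Nat.mul_le_mul_left _ e2
            have e4 : Q * ((i + 1) * E) = i * (Q * E) + Q * E := by ring
            omega
        refine ⟨a.2, ?_, ?_⟩
        · rw [← h7, ← ha]
          exact h3
        · rw [← h7, ← ha]
      · rintro ⟨a, ha, rfl⟩
        have e4 : i * (Q * E) = Q * (i * E) := by ring
        have ha2 := a.isLt
        have e5 : Q * (i * E + a.val) = Q * (i * E) + Q * a.val := by ring
        have e6 : Q * a.val ≤ Q * κ0 := Nat.mul_le_mul_left _ ha2.le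
        refine ⟨⟨?_, ?_⟩, ha⟩
        · omega
        · omega
    rw [h1, Finset.card_image_of_injective]
    intro a b hab
    have h2 : Q * (i * E + a.val) = Q * (i * E + b.val) := by
      have := hab
      simp only at this
      omega
    have h3 := Nat.eq_of_mul_eq_mul_left hQ h2
    exact Fin.ext (by omega)
  refine ⟨?_, ?_⟩
  · intro q hq h1 h2
    obtain ⟨j, rfl⟩ : ∃ j, q = n + j := ⟨q - n, by omega⟩
    have h6 : j ≤ Q * M * E := by
      have : M * (Q * E) = Q * M * E := by ring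
      omega
    obtain ⟨a, ha⟩ := hpr j h6 hq
    have e4 : a.1.val * (Q * E) = Q * (a.1.val * E) := by ring
    have ha2 := a.2.isLt
    have e5 : Q * (a.1.val * E + a.2.val) = Q * (a.1.val * E) + Q * a.2.val := by ring
    have e6 : Q * a.2.val ≤ Q * κ0 := Nat.mul_le_mul_left _ ha2.le
    refine ⟨a.1.val, a.1.isLt, ?_, ?_⟩
    · omega
    · omega
  · intro p _
    rw [Finset.card_filter, Finset.card_filter, Finset.sum_range]
    refine Finset.sum_congr rfl fun i _ => ?_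
    rw [hpc i.val i.isLt]

theorem blocksLog_of {c1 : ℝ} (hc1 : 0 < c1)
    (hb : ∀ (κ : Type) [Fintype κ] [DecidableEq κ] (J D0 : ℕ) (A : ℝ),
      0 < Fintype.card κ → 10 * 2 ^ J ≤ 8 * Fintype.card κ * (J + 2) →
      (Fintype.card κ + 3) ^ 10 ≤ D0 → 1 ≤ A → ∃ X0 : ℝ, 3 ≤ X0 ∧ ∀ x : ℝ, X0 ≤ x →
      ∀ (h : κ → ℕ) (W v : ℕ), Setup D0 h W v → Reg D0 W → (W : ℝ) ≤ Real.log x ^ A →
      (∀ i, (h i : ℝ) ≤ Real.log x ^ A) →
      ∃ (u : ℕ → ℝ) (S : ℝ), (∀ n, 0 ≤ u n) ∧ 0 < S ∧ ∑ n ∈ NS x W v, u n ≤ 2 * S ∧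
        (∀ m : κ, c1 * ((J + 2) / Fintype.card κ) * S ≤
          ∑ n ∈ (NS x W v).filter (fun n => (n + h m).Prime), u n) ∧
        (∀ m m' : κ, m ≠ m' →
          ∑ n ∈ (NS x W v).filter (fun n => (n + h m).Prime ∧ (n + h m').Prime), u n ≤
            2 * ((J + 2) / (10 * Fintype.card κ)) ^ 2 * S) ∧
        (∀ j : ℕ, (∀ i, h i ≠ j) →
          ∑ n ∈ (NS x W v).filter (fun n => (n + j).Prime), u n ≤
            6000 * D0 / Real.log x *
              (∏ p ∈ (∏ i, ((h i : ℤ) - j).natAbs).primeFactors, (1 + 1 / (p : ℝ))) * S))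
    (hY : SingAvg) (hC : ShiftsU) : BlocksLog := by
  intro η hη
  have hθ0 : 0 < 1 + 1 / η := by positivity
  obtain ⟨e1, he1⟩ : ∃ e1 : ℝ, e1 = 25 * c1 / (1 + 1 / η) := ⟨_, rfl⟩
  have he10 : 0 < e1 := by rw [he1]; positivity
  refine ⟨e1 * c1 / 16, by positivity, ⌈4 / e1⌉₊ + 1, ?_⟩
  intro M hM
  have hM0 : 0 < M := by omega
  have hMr : (0 : ℝ) < M := by exact_mod_cast hM0
  have heM : 4 ≤ e1 * M := by
    have h1 : 4 / e1 ≤ M := (Nat.le_ceil _).trans (by exact_mod_cast (by omega : ⌈4 / e1⌉₊ ≤ M))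
    rw [div_le_iff₀ he10] at h1
    linarith
  obtain ⟨J, hJ1, hJ2⟩ : ∃ J : ℕ, ((J : ℝ) + 2) ≤ e1 * M ∧ e1 * M / 2 ≤ (J : ℝ) + 2 := by
    have h1 : 4 ≤ ⌊e1 * M⌋₊ := Nat.le_floor (by exact_mod_cast heM)
    refine ⟨⌊e1 * M⌋₊ - 2, ?_, ?_⟩
    · have h2 : ((⌊e1 * M⌋₊ - 2 : ℕ) : ℝ) + 2 = ⌊e1 * M⌋₊ := by
        push_cast [(by omega : 2 ≤ ⌊e1 * M⌋₊)]
        ring
      rw [h2]
      exact Nat.floor_le (by positivity)
    · have h2 : ((⌊e1 * M⌋₊ - 2 : ℕ) : ℝ) + 2 = ⌊e1 * M⌋₊ := by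
        push_cast [(by omega : 2 ≤ ⌊e1 * M⌋₊)]
        ring
      rw [h2]
      have h3 := Nat.lt_floor_add_one (e1 * M)
      linarith
  obtain ⟨κ0, hκ0⟩ : ∃ κ0 : ℕ, κ0 = 2 ^ (J + 1) := ⟨_, rfl⟩
  have hκ00 : 0 < κ0 := by rw [hκ0]; positivity
  obtain ⟨D0, hD0⟩ : ∃ D0 : ℕ, D0 = (M * κ0 + 3) ^ 10 := ⟨_, rfl⟩
  have hD00 : 0 < D0 := by rw [hD0]; positivity
  have hD0r : (0 : ℝ) < D0 := by exact_mod_cast hD00
  obtain ⟨Q, D1, hQ, hD1, hsh⟩ := hC M κ0 D0 hM0 hκ00 (by
    rw [hD0]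
    exact Nat.pow_le_pow_left (by omega) 10)
  have hQr : (0 : ℝ) < Q := by exact_mod_cast hQ
  obtain ⟨CK, hCK0, hCK⟩ := hY (M * κ0)
  have hcard : Fintype.card (Fin M × Fin κ0) = M * κ0 := by simp
  obtain ⟨X0, hX03, hb'⟩ := hb (Fin M × Fin κ0) J D0 (D1 + 1 : ℕ) (by rw [hcard]; positivity) (by
      rw [hcard]
      have h1 : 1 * 2 ^ (J + 1) ≤ M * κ0 := by
        rw [hκ0]
        exact Nat.mul_le_mul hM0 le_rfl
      have h2 : (2 : ℕ) ^ (J + 1) = 2 * 2 ^ J := by ring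
      have h3 : 0 < 2 ^ J := by positivity
      nlinarith) (by rw [hcard, hD0]) (by exact_mod_cast (by omega : 1 ≤ D1 + 1))
  set c : ℝ := min (1 / (2 * Q * M)) (e1 * c1 / (32 * 12000 * D0 * CK * Q * M)) with hc
  have hc0 : 0 < c := lt_min (by positivity) (by positivity)
  refine ⟨Q * κ0 + D1 + 2 * Q, c, max X0 3, hc0, ?_⟩
  intro x hx D hD hDc
  have hxX : X0 ≤ x := (le_max_left _ _).trans hx
  have hx3 : 3 ≤ x := (le_max_right _ _).trans hx
  have hD1D : D1 ≤ D := by omega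
  have hlog1 : 1 ≤ Real.log x := by
    rw [Real.le_log_iff_exp_le (by linarith)]
    exact (Real.exp_one_lt_d9.le.trans (by norm_num)).trans hx3
  have hlog0 : 0 < Real.log x := by linarith
  obtain ⟨E, W, v, hDE, hE2, hSet, hReg, hW⟩ := hsh D hD1D
  have hc1' : c ≤ 1 / (2 * Q * M) := min_le_left _ _
  have hc2' : c ≤ e1 * c1 / (32 * 12000 * D0 * CK * Q * M) := min_le_right _ _
  have hYle : ((Q * M * E : ℕ) : ℝ) ≤ 2 * Q * M * (c * Real.log x) := by
    have h1 : (E : ℝ) ≤ 2 * D := by exact_mod_cast hE2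
    push_cast
    calc (Q : ℝ) * M * E ≤ Q * M * (2 * D) := by gcongr
      _ = 2 * Q * M * D := by ring
      _ ≤ _ := by gcongr
  have hYlog : ((Q * M * E : ℕ) : ℝ) ≤ Real.log x := by
    refine hYle.trans ?_
    calc 2 * Q * M * (c * Real.log x) = 2 * Q * M * c * Real.log x := by ring
      _ ≤ 2 * Q * M * (1 / (2 * Q * M)) * Real.log x := by gcongr
      _ = Real.log x := by field_simp
  have hDlog : (D : ℝ) ≤ Real.log x := by
    refine le_trans ?_ hYlog
    have h1 : 1 * 1 * D ≤ Q * M * E := Nat.mul_le_mul (Nat.mul_le_mul hQ hM0) hDE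
    rw [one_mul, one_mul] at h1
    exact_mod_cast h1
  have hpow1 : Real.log x ≤ Real.log x ^ ((D1 + 1 : ℕ) : ℝ) := by
    rw [Real.rpow_natCast]
    exact le_self_pow₀ hlog1 (by omega)
  have hWlog : (W : ℝ) ≤ Real.log x ^ ((D1 + 1 : ℕ) : ℝ) := by
    rw [Real.rpow_natCast]
    calc (W : ℝ) ≤ (D : ℝ) ^ D1 := by exact_mod_cast hW
      _ ≤ Real.log x ^ D1 := by gcongr
      _ ≤ Real.log x ^ (D1 + 1) := pow_le_pow_right₀ hlog1 (by omega)
  have hκE : κ0 ≤ E := by omega
  -- the shifts are at most Q M E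
  have hshift : ∀ a : Fin M × Fin κ0, Q * (a.1.val * E + a.2.val) ≤ Q * M * E := by
    intro a
    have h1 := a.1.isLt
    have h2 := a.2.isLt
    have h3 : (a.1.val + 1) * E ≤ M * E := Nat.mul_le_mul_right _ h1
    rw [mul_assoc]
    apply Nat.mul_le_mul_left
    rw [add_mul, one_mul] at h3
    omega
  obtain ⟨u, S, hu, hS0, hT, hs, hp, ho⟩ := hb' x hxX _ W v hSet hReg hWlog (fun a => by
    refine le_trans ?_ hpow1
    refine le_trans ?_ hYlog
    exact_mod_cast hshift a)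
  rw [hcard] at hs hp
  set h : Fin M × Fin κ0 → ℕ := fun a => Q * (a.1.val * E + a.2.val) with hh
  set Yf : Finset ℕ := (range (Q * M * E + 1)).filter
      (fun j => ∀ a : Fin M × Fin κ0, h a ≠ j) with hYf
  have hYsum : ∑ j ∈ Yf, ∑ n ∈ (NS x W v).filter (fun n => (n + j).Prime), u n ≤
      e1 * c1 / 32 * S := by
    have h1 : ∑ j ∈ Yf, ∑ n ∈ (NS x W v).filter (fun n => (n + j).Prime), u n ≤
        ∑ j ∈ Yf, 6000 * D0 / Real.log x *
          (∏ p ∈ (∏ i, ((h i : ℤ) - j).natAbs).primeFactors, (1 + 1 / (p : ℝ))) * S := by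
      refine Finset.sum_le_sum fun j hj => ho j ?_
      rw [hYf, mem_filter] at hj
      exact hj.2
    refine h1.trans ?_
    rw [← Finset.sum_mul, ← Finset.mul_sum]
    have h2 : ∑ j ∈ Yf, ∏ p ∈ (∏ i, ((h i : ℤ) - j).natAbs).primeFactors, (1 + 1 / (p : ℝ)) ≤
        CK * (Q * M * E : ℕ) := by
      have h3 := hCK (Q * M * E) (fun i => h (finProdFinEquiv.symm i)) (by
        have : 1 * 1 * 1 ≤ Q * M * E := Nat.mul_le_mul (Nat.mul_le_mul hQ hM0) (by omega)
        omega) (fun i => hshift _)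
      refine le_trans (le_of_eq ?_) h3
      have h4 : Yf = (range (Q * M * E + 1)).filter
          (fun j => ∀ i : Fin (M * κ0), h (finProdFinEquiv.symm i) ≠ j) := by
        rw [hYf]
        refine Finset.filter_congr fun j _ => ?_
        constructor
        · intro h5 i
          exact h5 _
        · intro h5 a
          have := h5 (finProdFinEquiv a)
          rwa [Equiv.symm_apply_apply] at this
      rw [h4]
      refine Finset.sum_congr rfl fun j _ => ?_
      have h5 : (∏ i : Fin (M * κ0), ((h (finProdFinEquiv.symm i) : ℤ) - j).natAbs) =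
          ∏ a : Fin M × Fin κ0, ((h a : ℤ) - j).natAbs :=
        Equiv.prod_comp finProdFinEquiv.symm (fun a => ((h a : ℤ) - j).natAbs)
      rw [h5]
    calc _ ≤ 6000 * D0 / Real.log x * (CK * (Q * M * E : ℕ)) * S := by gcongr
      _ ≤ 6000 * D0 / Real.log x * (CK * (2 * Q * M * (c * Real.log x))) * S := by gcongr
      _ = 12000 * D0 * CK * Q * M * c * S := by
        field_simp
        ring
      _ ≤ 12000 * D0 * CK * Q * M * (e1 * c1 / (32 * 12000 * D0 * CK * Q * M)) * S := by gcongr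
      _ = e1 * c1 / 32 * S := by
        field_simp
  obtain ⟨n, hn, hn1, hn2, hn3⟩ := pick hM0 hκ00 hη hc1 he1 rfl hJ1 hJ2 h (NS x W v) u Yf hu hS0
    hT hs hp hYsum
  obtain ⟨hb1, hb2⟩ := to_blocks (B0 := Q * κ0 + D1 + 2 * Q) hQ hκE (by omega) (by omega) hn3
  refine ⟨n, Q * E, ?_, ?_, ?_, ?_, hb1, ?_, ?_⟩
  · have h1 := NS_floor hn
    have h2 := Nat.lt_floor_add_one (x ^ (1 / 2 : ℝ))
    have h3 : ((⌊x ^ (1 / 2 : ℝ)⌋₊ : ℝ) + 1) ≤ n := by exact_mod_cast h1
    linarith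
  · unfold NS at hn
    rw [mem_filter, mem_Ioc] at hn
    exact (Nat.le_floor_iff (by linarith)).1 hn.1.2
  · exact hDE.trans (Nat.le_mul_of_pos_left E hQ)
  · calc Q * E ≤ Q * (2 * D) := Nat.mul_le_mul_left _ hE2
      _ = 2 * Q * D := by ring
      _ ≤ _ := Nat.mul_le_mul_right _ (by omega)
  · rw [hb2 (fun r => r = 1)]
    exact hn1
  · rw [hb2 (fun r => r = 1), hb2 (fun r => 2 ≤ r)]
    exact hn2

end Pool.Agent.Helper1.MT
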