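import Pool.Agent.Helper1.MT.Bounds

/-!
# Project MT: the theorem on clusters
-/

set_option autoImplicit false

open Finset Filter

namespace Pool.Agent.Helper1.MT

theorem pointwise {η : ℝ} (hη : 0 < η) (r : ℕ) :
    (r : ℝ) - (1 + 1 / η) * ((r * r - r : ℕ) : ℝ) ≤
      (if r = 1 then 1 else 0) - (1 / η) * (if 2 ≤ r then 1 else 0) := by
  have h1 : 0 < 1 / η := by positivity
  rcases Nat.lt_or_ge r 2 with hr | hr
  · interval_cases r
    · simp
    · simp
  · rw [if_neg (by omega), if_pos hr]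
    have h2 : r ≤ r * r := Nat.le_mul_of_pos_left r (by omega)
    have h3 : ((r * r - r : ℕ) : ℝ) = r * r - r := by
      push_cast [h2]
      ring
    have h4 : (2 : ℝ) ≤ r := by exact_mod_cast hr
    rw [h3]
    have h5 : (1 : ℝ) ≤ r * r - r := by nlinarith
    have h6 : (r : ℝ) ≤ r * r - r := by nlinarith
    nlinarith

theorem clusters_of {c1 : ℝ} (hc1 : 0 < c1)
    (hb : ∀ (κ : Type) [Fintype κ] [DecidableEq κ] (J D0 : ℕ) (h : κ → ℕ) (W v : ℕ),
      0 < Fintype.card κ → 10 * 2 ^ J ≤ 8 * Fintype.card κ * (J + 2) →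
      (Fintype.card κ + 2) ^ 10 ≤ D0 → Setup D0 h W v → ∀ (Y : ℝ) (N : ℕ),
      ∃ (F : Finset ℕ) (u : ℕ → ℝ) (S : ℝ), (∀ n ∈ F, N ≤ n ∧ n ≡ v [MOD W]) ∧
        (∀ n, 0 ≤ u n) ∧ Y ≤ S ∧ ∑ n ∈ F, u n ≤ S + 1 ∧
        (∀ m : κ, c1 * ((J + 2) / Fintype.card κ) * S - 1 ≤
          ∑ n ∈ F.filter (fun n => (n + h m).Prime), u n) ∧
        (∀ m m' : κ, m ≠ m' →
          ∑ n ∈ F.filter (fun n => (n + h m).Prime ∧ (n + h m').Prime), u n ≤
            ((J + 2) / (10 * Fintype.card κ)) ^ 2 * S + 1)) : Clusters := by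
  intro η hη
  set θ : ℝ := 1 + 1 / η with hθ
  have hθ0 : 0 < θ := by positivity
  set e1 : ℝ := 50 * c1 / θ with he1
  have he10 : 0 < e1 := by positivity
  refine ⟨e1 * c1 / 8, by positivity, ⌈4 / e1⌉₊ + 1, ?_⟩
  intro M hM
  have hM0 : 0 < M := by omega
  have hMr : (0 : ℝ) < M := by exact_mod_cast hM0
  have heM : 4 ≤ e1 * M := by
    have h1 : 4 / e1 ≤ M := (Nat.le_ceil _).trans (by exact_mod_cast (by omega : ⌈4 / e1⌉₊ ≤ M))
    rw [div_le_iff₀ he10] at h1
    linarith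
  obtain ⟨J, hJ1, hJ2⟩ : ∃ J : ℕ, ((J : ℝ) + 2) ≤ e1 * M ∧ e1 * M / 2 ≤ (J : ℝ) + 2 := by
    have h1 : 4 ≤ ⌊e1 * M⌋₊ := Nat.le_floor (by exact_mod_cast heM)
    refine ⟨⌊e1 * M⌋₊ - 2, ?_, ?_⟩
    · have h2 : ((⌊e1 * M⌋₊ - 2 : ℕ) : ℝ) + 2 = ⌊e1 * M⌋₊ := by
        push_cast [(by omega : 2 ≤ ⌊e1 * M⌋₊)]
        ring
      rw [h2]
      exact Nat.floor_le (by positivity)
    · have h2 : ((⌊e1 * M⌋₊ - 2 : ℕ) : ℝ) + 2 = ⌊e1 * M⌋₊ := by
        push_cast [(by omega : 2 ≤ ⌊e1 * M⌋₊)]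
        ring
      rw [h2]
      have h3 := Nat.lt_floor_add_one (e1 * M)
      linarith
  set κ0 : ℕ := 2 ^ (J + 1) with hκ0
  have hκ00 : 0 < κ0 := by positivity
  set D0 : ℕ := (M * κ0 + 2) ^ 10 with hD0
  refine ⟨κ0, D0, hκ00, ?_, ?_⟩
  · calc M * κ0 < M * κ0 + 2 := by omega
      _ ≤ D0 := Nat.le_self_pow (by norm_num) _
  intro h W v hS N
  have hcard : Fintype.card (Fin M × Fin κ0) = M * κ0 := by simp
  have hKr : (0 : ℝ) < (M * κ0 : ℕ) := by positivity
  have hκr : (0 : ℝ) < κ0 := by exact_mod_cast hκ00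
  set cst : ℝ := (M * κ0 : ℕ) + θ * M * κ0 ^ 2 + e1 * c1 / 8 * M + 1 with hcst
  obtain ⟨F, u, S, hF, hu, hY, hT, hs, hp⟩ := hb (Fin M × Fin κ0) J D0 h W v
    (by rw [hcard]; positivity) (by
      rw [hcard]
      have h1 : 1 * 2 ^ (J + 1) ≤ M * κ0 := Nat.mul_le_mul hM0 le_rfl
      have h2 : (2 : ℕ) ^ (J + 1) = 2 * 2 ^ J := by ring
      have h3 : 0 < 2 ^ J := by positivity
      nlinarith) (by rw [hcard]) hS (8 * cst / (e1 * c1 * M)) N
  rw [hcard] at hs hp
  -- suppose not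
  by_contra hcon
  push Not at hcon
  have hneg : ∀ n ∈ F, (singles h n : ℝ) - (1 / η) * multis h n - e1 * c1 / 8 * M ≤ 0 := by
    intro n hn
    by_contra h1
    push Not at h1
    have h2 := hcon n (hF n hn).1 (hF n hn).2 (by
      have : 0 ≤ (1 / η) * (multis h n : ℝ) := by positivity
      linarith)
    have h3 : (singles h n : ℝ) < (1 / η) * multis h n := by
      rw [one_div, inv_mul_eq_div, lt_div_iff₀ hη]
      linarith
    have h4 : 0 < e1 * c1 / 8 * M := by positivity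
    linarith
  -- the sum is nonpositive
  have hsum : ∑ n ∈ F, u n * ((singles h n : ℝ) - (1 / η) * multis h n - e1 * c1 / 8 * M) ≤ 0 :=
    Finset.sum_nonpos fun n hn => mul_nonpos_of_nonneg_of_nonpos (hu n) (hneg n hn)
  -- pointwise lower bound
  have hpt : ∀ n : ℕ, (∑ m : Fin M × Fin κ0, if (n + h m).Prime then (1 : ℝ) else 0) -
      θ * ∑ i : Fin M, ∑ q ∈ (univ : Finset (Fin κ0)).offDiag,
        (if (n + h (i, q.1)).Prime ∧ (n + h (i, q.2)).Prime then (1 : ℝ) else 0) ≤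
      (singles h n : ℝ) - (1 / η) * multis h n := by
    intro n
    have h1 : (∑ m : Fin M × Fin κ0, if (n + h m).Prime then (1 : ℝ) else 0) =
        ∑ i : Fin M, (hits h n i : ℝ) := by
      rw [Fintype.sum_prod_type]
      refine Finset.sum_congr rfl fun i _ => ?_
      rw [Finset.sum_ite, Finset.sum_const_zero, add_zero, Finset.sum_const, nsmul_eq_mul, mul_one]
      rfl
    have h2 : ∀ i : Fin M, ∑ q ∈ (univ : Finset (Fin κ0)).offDiag,
        (if (n + h (i, q.1)).Prime ∧ (n + h (i, q.2)).Prime then (1 : ℝ) else 0) =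
        ((hits h n i * hits h n i - hits h n i : ℕ) : ℝ) := by
      intro i
      rw [Finset.sum_ite, Finset.sum_const_zero, add_zero, Finset.sum_const, nsmul_eq_mul, mul_one]
      have h3 : (univ : Finset (Fin κ0)).offDiag.filter
          (fun q => (n + h (i, q.1)).Prime ∧ (n + h (i, q.2)).Prime) =
          (univ.filter (fun a : Fin κ0 => (n + h (i, a)).Prime)).offDiag := by
        ext q
        simp only [mem_filter, mem_offDiag, mem_univ, true_and]
        tauto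
      rw [h3, Finset.offDiag_card]
      rfl
    have h3 : (singles h n : ℝ) = ∑ i : Fin M, (if hits h n i = 1 then (1 : ℝ) else 0) := by
      unfold singles
      rw [Finset.card_filter]
      push_cast
      rfl
    have h4 : (multis h n : ℝ) = ∑ i : Fin M, (if 2 ≤ hits h n i then (1 : ℝ) else 0) := by
      unfold multis
      rw [Finset.card_filter]
      push_cast
      rfl
    rw [h1, h3, h4, Finset.sum_congr rfl fun i _ => h2 i, Finset.mul_sum, Finset.mul_sum,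
      ← Finset.sum_sub_distrib, ← Finset.sum_sub_distrib]
    exact Finset.sum_le_sum fun i _ => pointwise hη _
  -- sum the lower bound
  have hlow : (∑ m : Fin M × Fin κ0, ∑ n ∈ F.filter (fun n => (n + h m).Prime), u n) -
      θ * (∑ i : Fin M, ∑ q ∈ (univ : Finset (Fin κ0)).offDiag,
        ∑ n ∈ F.filter (fun n => (n + h (i, q.1)).Prime ∧ (n + h (i, q.2)).Prime), u n) ≤
      ∑ n ∈ F, u n * ((singles h n : ℝ) - (1 / η) * multis h n) := by
    have e1 : (∑ m : Fin M × Fin κ0, ∑ n ∈ F.filter (fun n => (n + h m).Prime), u n) =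
        ∑ n ∈ F, u n * (∑ m : Fin M × Fin κ0, if (n + h m).Prime then (1 : ℝ) else 0) := by
      simp only [Finset.mul_sum, Finset.sum_filter, mul_ite, mul_one, mul_zero]
      rw [Finset.sum_comm]
    have e2 : (∑ i : Fin M, ∑ q ∈ (univ : Finset (Fin κ0)).offDiag,
        ∑ n ∈ F.filter (fun n => (n + h (i, q.1)).Prime ∧ (n + h (i, q.2)).Prime), u n) =
        ∑ n ∈ F, u n * (∑ i : Fin M, ∑ q ∈ (univ : Finset (Fin κ0)).offDiag,
        (if (n + h (i, q.1)).Prime ∧ (n + h (i, q.2)).Prime then (1 : ℝ) else 0)) := by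
      simp only [Finset.mul_sum, Finset.sum_filter, mul_ite, mul_one, mul_zero]
      rw [Finset.sum_comm (s := F)]
      exact Finset.sum_congr rfl fun i _ => Finset.sum_comm
    rw [e1, e2, Finset.mul_sum, ← Finset.sum_sub_distrib]
    refine Finset.sum_le_sum fun n _ => ?_
    calc _ = u n * ((∑ m : Fin M × Fin κ0, if (n + h m).Prime then (1 : ℝ) else 0) -
      θ * ∑ i : Fin M, ∑ q ∈ (univ : Finset (Fin κ0)).offDiag,
        (if (n + h (i, q.1)).Prime ∧ (n + h (i, q.2)).Prime then (1 : ℝ) else 0)) := by ring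
      _ ≤ _ := mul_le_mul_of_nonneg_left (hpt n) (hu n)
  have hs' : (M * κ0 : ℕ) * (c1 * ((J + 2) / (M * κ0 : ℕ)) * S - 1) ≤
      ∑ m : Fin M × Fin κ0, ∑ n ∈ F.filter (fun n => (n + h m).Prime), u n := by
    have := Finset.card_nsmul_le_sum (univ : Finset (Fin M × Fin κ0))
      (fun m => ∑ n ∈ F.filter (fun n => (n + h m).Prime), u n) _ (fun m _ => hs m)
    rw [Finset.card_univ, hcard, nsmul_eq_mul] at this
    exact this
  have hS0 : 0 < S := by
    refine lt_of_lt_of_le ?_ hY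
    have : 0 < cst := by positivity
    positivity
  have hp' : (∑ i : Fin M, ∑ q ∈ (univ : Finset (Fin κ0)).offDiag,
        ∑ n ∈ F.filter (fun n => (n + h (i, q.1)).Prime ∧ (n + h (i, q.2)).Prime), u n) ≤
      M * (κ0 ^ 2 * (((J + 2) / (10 * (M * κ0 : ℕ))) ^ 2 * S + 1)) := by
    have h1 : ∀ i : Fin M, ∑ q ∈ (univ : Finset (Fin κ0)).offDiag,
        ∑ n ∈ F.filter (fun n => (n + h (i, q.1)).Prime ∧ (n + h (i, q.2)).Prime), u n ≤
        κ0 ^ 2 * (((J + 2) / (10 * (M * κ0 : ℕ))) ^ 2 * S + 1) := by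
      intro i
      have h2 := Finset.sum_le_card_nsmul (univ : Finset (Fin κ0)).offDiag
        (fun q => ∑ n ∈ F.filter (fun n => (n + h (i, q.1)).Prime ∧ (n + h (i, q.2)).Prime), u n)
        (((J + 2) / (10 * (M * κ0 : ℕ))) ^ 2 * S + 1) (fun q hq => by
          refine hp (i, q.1) (i, q.2) ?_
          intro heq
          rw [mem_offDiag] at hq
          exact hq.2.2 (Prod.mk.inj heq).2)
      refine h2.trans ?_
      rw [nsmul_eq_mul]
      refine mul_le_mul_of_nonneg_right ?_ (by positivity)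
      rw [Finset.offDiag_card, Finset.card_univ, Fintype.card_fin]
      have : κ0 * κ0 - κ0 ≤ κ0 ^ 2 := by
        rw [sq]
        exact Nat.sub_le _ _
      exact_mod_cast this
    have := Finset.sum_le_card_nsmul (univ : Finset (Fin M))
      (fun i => ∑ q ∈ (univ : Finset (Fin κ0)).offDiag,
        ∑ n ∈ F.filter (fun n => (n + h (i, q.1)).Prime ∧ (n + h (i, q.2)).Prime), u n)
      (κ0 ^ 2 * (((J + 2) / (10 * (M * κ0 : ℕ))) ^ 2 * S + 1)) (fun i _ => h1 i)
    rw [Finset.card_univ, Fintype.card_fin, nsmul_eq_mul] at this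
    exact this
  -- numerics
  have hK : ((M * κ0 : ℕ) : ℝ) = M * κ0 := by push_cast; ring
  rw [hK] at hs' hp'
  have hmain : (J + 2) * S * (c1 / 2) - M * κ0 - θ * M * κ0 ^ 2 ≤
      ∑ n ∈ F, u n * ((singles h n : ℝ) - (1 / η) * multis h n) := by
    refine le_trans ?_ hlow
    have e2 : (M * κ0 : ℝ) * (c1 * ((J + 2) / (M * κ0)) * S - 1) =
        c1 * (J + 2) * S - M * κ0 := by
      field_simp
    have e3 : (M : ℝ) * (κ0 ^ 2 * (((J + 2) / (10 * (M * κ0))) ^ 2 * S + 1)) =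
        (J + 2) ^ 2 / (100 * M) * S + M * κ0 ^ 2 := by
      field_simp
      ring
    rw [e2] at hs'
    rw [e3] at hp'
    have e4 : θ * ((J + 2) ^ 2 / (100 * M) * S + M * κ0 ^ 2) ≤
        (J + 2) * S * (c1 / 2) + θ * M * κ0 ^ 2 := by
      have e5 : θ * ((J + 2 : ℝ) / (100 * M)) ≤ c1 / 2 := by
        have e6 : (J + 2 : ℝ) / (100 * M) ≤ e1 / 100 := by
          rw [div_le_div_iff₀ (by positivity) (by norm_num)]
          nlinarith
        calc θ * ((J + 2 : ℝ) / (100 * M)) ≤ θ * (e1 / 100) := by gcongr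
          _ = c1 / 2 := by
            rw [he1]
            field_simp
            norm_num
      have e7 : θ * ((J + 2) ^ 2 / (100 * M) * S + M * κ0 ^ 2) =
          (θ * ((J + 2 : ℝ) / (100 * M))) * ((J + 2) * S) + θ * M * κ0 ^ 2 := by ring
      rw [e7]
      have e8 : (0 : ℝ) ≤ (J + 2) * S := by positivity
      nlinarith
    have e9 := mul_le_mul_of_nonneg_left hp' hθ0.le
    linarith
  have hfin : ∑ n ∈ F, u n * ((singles h n : ℝ) - (1 / η) * multis h n - e1 * c1 / 8 * M) =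
      ∑ n ∈ F, u n * ((singles h n : ℝ) - (1 / η) * multis h n) - e1 * c1 / 8 * M * ∑ n ∈ F, u n := by
    rw [Finset.mul_sum, ← Finset.sum_sub_distrib]
    exact Finset.sum_congr rfl fun n _ => by ring
  rw [hfin] at hsum
  have h1 : e1 * c1 / 8 * M * ∑ n ∈ F, u n ≤ e1 * c1 / 8 * M * (S + 1) := by gcongr
  have h2 : e1 * M / 2 * S * (c1 / 2) ≤ (J + 2) * S * (c1 / 2) := by gcongr
  have h3 : cst ≤ e1 * c1 * M / 8 * S := by
    rw [div_le_iff₀ (by positivity)] at hY
    nlinarith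
  have h4 : e1 * M / 2 * S * (c1 / 2) = 2 * (e1 * c1 * M / 8 * S) := by ring
  rw [hK] at hcst
  nlinarith

end Pool.Agent.Helper1.MT
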