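import Pool.Agent.Helper1.MT.DefsU
import Pool.Agent.Helper1.MT.Clusters

/-!
# Project MT, part 2: the theorem on blocks with spacing up to a constant times `log x`
-/

set_option autoImplicit false

open Finset Filter

namespace Pool.Agent.Helper1.MT

/-- The output of the sieve: for some `n` many clusters contain exactly one prime, few contain
more, and there is no prime outside of the clusters. -/
theorem pick {M κ0 : ℕ} {c1 η δ e1 S : ℝ} {J : ℕ} (hM : 0 < M) (hκ : 0 < κ0)
    (hη : 0 < η) (hc1 : 0 < c1) (he1 : e1 = 25 * c1 / (1 + 1 / η)) (hδ : δ = e1 * c1 / 16)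
    (hJ1 : ((J : ℝ) + 2) ≤ e1 * M) (hJ2 : e1 * M / 2 ≤ (J : ℝ) + 2)
    (h : Fin M × Fin κ0 → ℕ) (F : Finset ℕ) (u : ℕ → ℝ) (Y : Finset ℕ)
    (hu : ∀ n, 0 ≤ u n) (hS0 : 0 < S) (hT : ∑ n ∈ F, u n ≤ 2 * S)
    (hs : ∀ m, c1 * ((J + 2) / ((M * κ0 : ℕ) : ℝ)) * S ≤
      ∑ n ∈ F.filter (fun n => (n + h m).Prime), u n)
    (hp : ∀ m m', m ≠ m' → ∑ n ∈ F.filter (fun n => (n + h m).Prime ∧ (n + h m').Prime), u n ≤
      2 * ((J + 2) / (10 * ((M * κ0 : ℕ) : ℝ))) ^ 2 * S)
    (ho : ∑ j ∈ Y, ∑ n ∈ F.filter (fun n => (n + j).Prime), u n ≤ e1 * c1 / 32 * S) :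
    ∃ n ∈ F, δ * M ≤ singles h n ∧ (multis h n : ℝ) ≤ η * singles h n ∧
      ∀ j ∈ Y, ¬ (n + j).Prime := by
  have hMr : (0 : ℝ) < M := by exact_mod_cast hM
  have hκr : (0 : ℝ) < κ0 := by exact_mod_cast hκ
  set θ : ℝ := 1 + 1 / η with hθ
  have hθ0 : 0 < θ := by positivity
  have he10 : 0 < e1 := by rw [he1]; positivity
  have hδ0 : 0 < δ := by rw [hδ]; positivity
  have hcard : Fintype.card (Fin M × Fin κ0) = M * κ0 := by simp
  by_contra hcon
  push Not at hcon
  have hle : ∀ n, (singles h n : ℝ) ≤ M := by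
    intro n
    have : singles h n ≤ Fintype.card (Fin M) := Finset.card_le_univ _
    rw [Fintype.card_fin] at this
    exact_mod_cast this
  have hneg : ∀ n ∈ F, (singles h n : ℝ) - (1 / η) * multis h n - δ * M -
      M * ∑ j ∈ Y, (if (n + j).Prime then (1 : ℝ) else 0) ≤ 0 := by
    intro n hn
    by_contra h1
    push Not at h1
    have hY0 : 0 ≤ ∑ j ∈ Y, (if (n + j).Prime then (1 : ℝ) else 0) :=
      Finset.sum_nonneg fun j _ => by split_ifs <;> norm_num
    have hm0 : 0 ≤ (1 / η) * (multis h n : ℝ) := by positivity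
    have hMY : 0 ≤ (M : ℝ) * ∑ j ∈ Y, (if (n + j).Prime then (1 : ℝ) else 0) := by positivity
    obtain ⟨j, hj, hjp⟩ := hcon n hn (by linarith) (by
      have h3 : (1 / η) * (multis h n : ℝ) ≤ singles h n := by
        have : 0 ≤ δ * M := by positivity
        linarith
      rw [one_div, inv_mul_eq_div, div_le_iff₀ hη] at h3
      linarith)
    have h4 : (1 : ℝ) ≤ ∑ j ∈ Y, (if (n + j).Prime then (1 : ℝ) else 0) := by
      have := Finset.single_le_sum (f := fun j => if (n + j).Prime then (1 : ℝ) else 0)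
        (fun j _ => by split_ifs <;> norm_num) hj
      simp only [hjp, if_true] at this
      exact this
    have h5 : (M : ℝ) * 1 ≤ M * ∑ j ∈ Y, (if (n + j).Prime then (1 : ℝ) else 0) := by gcongr
    have h6 := hle n
    have h7 : 0 < δ * M := by positivity
    linarith
  have hsum : ∑ n ∈ F, u n * ((singles h n : ℝ) - (1 / η) * multis h n - δ * M -
      M * ∑ j ∈ Y, (if (n + j).Prime then (1 : ℝ) else 0)) ≤ 0 :=
    Finset.sum_nonpos fun n hn => mul_nonpos_of_nonneg_of_nonpos (hu n) (hneg n hn)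
  have hpt : ∀ n : ℕ, (∑ m : Fin M × Fin κ0, if (n + h m).Prime then (1 : ℝ) else 0) -
      θ * ∑ i : Fin M, ∑ q ∈ (univ : Finset (Fin κ0)).offDiag,
        (if (n + h (i, q.1)).Prime ∧ (n + h (i, q.2)).Prime then (1 : ℝ) else 0) ≤
      (singles h n : ℝ) - (1 / η) * multis h n := by
    intro n
    have h1 : (∑ m : Fin M × Fin κ0, if (n + h m).Prime then (1 : ℝ) else 0) =
        ∑ i : Fin M, (hits h n i : ℝ) := by
      rw [Fintype.sum_prod_type]
      refine Finset.sum_congr rfl fun i _ => ?_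
      rw [Finset.sum_ite, Finset.sum_const_zero, add_zero, Finset.sum_const, nsmul_eq_mul, mul_one]
      rfl
    have h2 : ∀ i : Fin M, ∑ q ∈ (univ : Finset (Fin κ0)).offDiag,
        (if (n + h (i, q.1)).Prime ∧ (n + h (i, q.2)).Prime then (1 : ℝ) else 0) =
        ((hits h n i * hits h n i - hits h n i : ℕ) : ℝ) := by
      intro i
      rw [Finset.sum_ite, Finset.sum_const_zero, add_zero, Finset.sum_const, nsmul_eq_mul, mul_one]
      have h3 : (univ : Finset (Fin κ0)).offDiag.filter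
          (fun q => (n + h (i, q.1)).Prime ∧ (n + h (i, q.2)).Prime) =
          (univ.filter (fun a : Fin κ0 => (n + h (i, a)).Prime)).offDiag := by
        ext q
        simp only [mem_filter, mem_offDiag, mem_univ, true_and]
        tauto
      rw [h3, Finset.offDiag_card]
      rfl
    have h3 : (singles h n : ℝ) = ∑ i : Fin M, (if hits h n i = 1 then (1 : ℝ) else 0) := by
      unfold singles
      rw [Finset.card_filter]
      push_cast
      rfl
    have h4 : (multis h n : ℝ) = ∑ i : Fin M, (if 2 ≤ hits h n i then (1 : ℝ) else 0) := by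
      unfold multis
      rw [Finset.card_filter]
      push_cast
      rfl
    rw [h1, h3, h4, Finset.sum_congr rfl fun i _ => h2 i, Finset.mul_sum, Finset.mul_sum,
      ← Finset.sum_sub_distrib, ← Finset.sum_sub_distrib]
    exact Finset.sum_le_sum fun i _ => pointwise hη _
  have hlow : (∑ m : Fin M × Fin κ0, ∑ n ∈ F.filter (fun n => (n + h m).Prime), u n) -
      θ * (∑ i : Fin M, ∑ q ∈ (univ : Finset (Fin κ0)).offDiag,
        ∑ n ∈ F.filter (fun n => (n + h (i, q.1)).Prime ∧ (n + h (i, q.2)).Prime), u n) ≤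
      ∑ n ∈ F, u n * ((singles h n : ℝ) - (1 / η) * multis h n) := by
    have e1 : (∑ m : Fin M × Fin κ0, ∑ n ∈ F.filter (fun n => (n + h m).Prime), u n) =
        ∑ n ∈ F, u n * (∑ m : Fin M × Fin κ0, if (n + h m).Prime then (1 : ℝ) else 0) := by
      simp only [Finset.mul_sum, Finset.sum_filter, mul_ite, mul_one, mul_zero]
      rw [Finset.sum_comm]
    have e2 : (∑ i : Fin M, ∑ q ∈ (univ : Finset (Fin κ0)).offDiag,
        ∑ n ∈ F.filter (fun n => (n + h (i, q.1)).Prime ∧ (n + h (i, q.2)).Prime), u n) =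
        ∑ n ∈ F, u n * (∑ i : Fin M, ∑ q ∈ (univ : Finset (Fin κ0)).offDiag,
        (if (n + h (i, q.1)).Prime ∧ (n + h (i, q.2)).Prime then (1 : ℝ) else 0)) := by
      simp only [Finset.mul_sum, Finset.sum_filter, mul_ite, mul_one, mul_zero]
      rw [Finset.sum_comm (s := F)]
      exact Finset.sum_congr rfl fun i _ => Finset.sum_comm
    rw [e1, e2, Finset.mul_sum, ← Finset.sum_sub_distrib]
    refine Finset.sum_le_sum fun n _ => ?_
    calc _ = u n * ((∑ m : Fin M × Fin κ0, if (n + h m).Prime then (1 : ℝ) else 0) -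
      θ * ∑ i : Fin M, ∑ q ∈ (univ : Finset (Fin κ0)).offDiag,
        (if (n + h (i, q.1)).Prime ∧ (n + h (i, q.2)).Prime then (1 : ℝ) else 0)) := by ring
      _ ≤ _ := mul_le_mul_of_nonneg_left (hpt n) (hu n)
  have hs' : (M * κ0 : ℕ) * (c1 * ((J + 2) / (M * κ0 : ℕ)) * S) ≤
      ∑ m : Fin M × Fin κ0, ∑ n ∈ F.filter (fun n => (n + h m).Prime), u n := by
    have := Finset.card_nsmul_le_sum (univ : Finset (Fin M × Fin κ0))
      (fun m => ∑ n ∈ F.filter (fun n => (n + h m).Prime), u n) _ (fun m _ => hs m)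
    rw [Finset.card_univ, hcard, nsmul_eq_mul] at this
    exact this
  have hp' : (∑ i : Fin M, ∑ q ∈ (univ : Finset (Fin κ0)).offDiag,
        ∑ n ∈ F.filter (fun n => (n + h (i, q.1)).Prime ∧ (n + h (i, q.2)).Prime), u n) ≤
      M * (κ0 ^ 2 * (2 * ((J + 2) / (10 * (M * κ0 : ℕ))) ^ 2 * S)) := by
    have h1 : ∀ i : Fin M, ∑ q ∈ (univ : Finset (Fin κ0)).offDiag,
        ∑ n ∈ F.filter (fun n => (n + h (i, q.1)).Prime ∧ (n + h (i, q.2)).Prime), u n ≤
        κ0 ^ 2 * (2 * ((J + 2) / (10 * (M * κ0 : ℕ))) ^ 2 * S) := by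
      intro i
      have h2 := Finset.sum_le_card_nsmul (univ : Finset (Fin κ0)).offDiag
        (fun q => ∑ n ∈ F.filter (fun n => (n + h (i, q.1)).Prime ∧ (n + h (i, q.2)).Prime), u n)
        (2 * ((J + 2) / (10 * (M * κ0 : ℕ))) ^ 2 * S) (fun q hq => by
          refine hp (i, q.1) (i, q.2) ?_
          intro heq
          rw [mem_offDiag] at hq
          exact hq.2.2 (Prod.mk.inj heq).2)
      refine h2.trans ?_
      rw [nsmul_eq_mul]
      refine mul_le_mul_of_nonneg_right ?_ (by positivity)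
      rw [Finset.offDiag_card, Finset.card_univ, Fintype.card_fin]
      have : κ0 * κ0 - κ0 ≤ κ0 ^ 2 := by
        rw [sq]
        exact Nat.sub_le _ _
      exact_mod_cast this
    have := Finset.sum_le_card_nsmul (univ : Finset (Fin M))
      (fun i => ∑ q ∈ (univ : Finset (Fin κ0)).offDiag,
        ∑ n ∈ F.filter (fun n => (n + h (i, q.1)).Prime ∧ (n + h (i, q.2)).Prime), u n)
      (κ0 ^ 2 * (2 * ((J + 2) / (10 * (M * κ0 : ℕ))) ^ 2 * S)) (fun i _ => h1 i)
    rw [Finset.card_univ, Fintype.card_fin, nsmul_eq_mul] at this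
    exact this
  have hK : ((M * κ0 : ℕ) : ℝ) = M * κ0 := by push_cast; ring
  rw [hK] at hs' hp'
  have hmain : (J + 2) * S * (c1 / 2) ≤
      ∑ n ∈ F, u n * ((singles h n : ℝ) - (1 / η) * multis h n) := by
    refine le_trans ?_ hlow
    have e2 : (M * κ0 : ℝ) * (c1 * ((J + 2) / (M * κ0)) * S) = c1 * (J + 2) * S := by
      field_simp
    have e3 : (M : ℝ) * (κ0 ^ 2 * (2 * ((J + 2) / (10 * (M * κ0))) ^ 2 * S)) =
        (J + 2) ^ 2 / (50 * M) * S := by
      field_simp
      ring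
    rw [e2] at hs'
    rw [e3] at hp'
    have e4 : θ * ((J + 2) ^ 2 / (50 * M) * S) ≤ (J + 2) * S * (c1 / 2) := by
      have e5 : θ * ((J + 2 : ℝ) / (50 * M)) ≤ c1 / 2 := by
        have e6 : (J + 2 : ℝ) / (50 * M) ≤ e1 / 50 := by
          rw [div_le_div_iff₀ (by positivity) (by norm_num)]
          linarith
        calc θ * ((J + 2 : ℝ) / (50 * M)) ≤ θ * (e1 / 50) := by gcongr
          _ = c1 / 2 := by
            rw [he1]
            field_simp
            norm_num
      have e7 : θ * ((J + 2) ^ 2 / (50 * M) * S) =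
          (θ * ((J + 2 : ℝ) / (50 * M))) * ((J + 2) * S) := by ring
      rw [e7]
      have e8 : (0 : ℝ) ≤ (J + 2) * S := by positivity
      calc (θ * ((J + 2 : ℝ) / (50 * M))) * ((J + 2) * S) ≤ (c1 / 2) * ((J + 2) * S) := by gcongr
        _ = _ := by ring
    have e9 := mul_le_mul_of_nonneg_left hp' hθ0.le
    linarith
  have hother : ∑ n ∈ F, u n * (M * ∑ j ∈ Y, (if (n + j).Prime then (1 : ℝ) else 0)) ≤
      M * (e1 * c1 / 32 * S) := by
    have e1 : ∑ n ∈ F, u n * (M * ∑ j ∈ Y, (if (n + j).Prime then (1 : ℝ) else 0)) =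
        M * ∑ j ∈ Y, ∑ n ∈ F.filter (fun n => (n + j).Prime), u n := by
      simp only [Finset.mul_sum, Finset.sum_filter, mul_ite, mul_one, mul_zero]
      rw [Finset.sum_comm]
      refine Finset.sum_congr rfl fun j _ => Finset.sum_congr rfl fun n _ => ?_
      split_ifs
      · ring
      · rfl
    rw [e1]
    gcongr
  have hfin : ∑ n ∈ F, u n * ((singles h n : ℝ) - (1 / η) * multis h n - δ * M -
      M * ∑ j ∈ Y, (if (n + j).Prime then (1 : ℝ) else 0)) =
      ∑ n ∈ F, u n * ((singles h n : ℝ) - (1 / η) * multis h n) - δ * M * ∑ n ∈ F, u n -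
        ∑ n ∈ F, u n * (M * ∑ j ∈ Y, (if (n + j).Prime then (1 : ℝ) else 0)) := by
    rw [Finset.mul_sum, ← Finset.sum_sub_distrib, ← Finset.sum_sub_distrib]
    exact Finset.sum_congr rfl fun n _ => by ring
  rw [hfin] at hsum
  have h1 : δ * M * ∑ n ∈ F, u n ≤ δ * M * (2 * S) := by gcongr
  have h2 : e1 * M / 2 * S * (c1 / 2) ≤ (J + 2) * S * (c1 / 2) := by gcongr
  have h3 : δ * M * (2 * S) = e1 * c1 * M * S / 8 := by rw [hδ]; ring
  have h4 : e1 * M / 2 * S * (c1 / 2) = e1 * c1 * M * S / 4 := by ring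
  have h5 : (M : ℝ) * (e1 * c1 / 32 * S) = e1 * c1 * M * S / 32 := by ring
  have h6 : 0 < e1 * c1 * M * S := by positivity
  rw [h3] at h1
  rw [h4] at h2
  rw [h5] at hother
  linarith

end Pool.Agent.Helper1.MT
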