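import Pool.Agent.Helper1.MT.Defs

/-!
# Project MT: from clusters to blocks
-/

set_option autoImplicit false

open Finset

namespace Pool.Agent.Helper1.MT

theorem blocks_of (hC : Clusters) (hS : Shifts) : Blocks := by
  intro η hη
  obtain ⟨δ, hδ, M0, h⟩ := hC η hη
  refine ⟨δ, hδ, M0 + 1, fun M hM => ?_⟩
  obtain ⟨κ0, D0, hκ, hMD, h⟩ := h M (by omega)
  obtain ⟨Q, hQ, hsh⟩ := hS M κ0 D0 (by omega) hκ hMD
  refine ⟨Q * κ0, fun D N => ?_⟩
  set D1 := D + 2 * κ0 + 1 with hD1
  obtain ⟨W, v, hSet, hpr⟩ := hsh D1 (by omega)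
  obtain ⟨n, hn, hmod, hs, hm⟩ := h _ W v hSet (max N W)
  have hM0 : 0 < M := by omega
  -- the number of primes in a block
  have hpc : ∀ i (hi : i < M), pc (n + i * (Q * D1)) (n + i * (Q * D1) + Q * κ0) =
      hits (fun a : Fin M × Fin κ0 => Q * (a.1.val * D1 + a.2.val)) n ⟨i, hi⟩ := by
    intro i hi
    unfold pc hits
    have h1 : ((Icc (n + i * (Q * D1)) (n + i * (Q * D1) + Q * κ0)).filter Nat.Prime) =
        (univ.filter (fun a : Fin κ0 => (n + Q * (i * D1 + a.val)).Prime)).image
          (fun a : Fin κ0 => n + Q * (i * D1 + a.val)) := by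
      ext q
      simp only [mem_filter, mem_Icc, mem_image, mem_univ, true_and]
      constructor
      · rintro ⟨⟨h1, h2⟩, h3⟩
        obtain ⟨j, rfl⟩ : ∃ j, q = n + j := ⟨q - n, by
          have : n ≤ q := le_trans (Nat.le_add_right _ _) h1
          omega⟩
        have h4 : i * (Q * D1) ≤ j := by omega
        have h5 : j ≤ i * (Q * D1) + Q * κ0 := by omega
        have h6 : j ≤ Q * M * D1 := by
          calc j ≤ i * (Q * D1) + Q * κ0 := h5
            _ ≤ i * (Q * D1) + Q * D1 := by gcongr; omega
            _ = (i + 1) * (Q * D1) := by ring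
            _ ≤ M * (Q * D1) := by gcongr; omega
            _ = Q * M * D1 := by ring
        obtain ⟨a, ha⟩ := hpr n hmod (le_trans (le_max_right _ _) hn) j h6 h3
        have h7 : a.1.val = i := by
          have ha2 := a.2.isLt
          have e1 : i * (Q * D1) = Q * (i * D1) := by ring
          have e2 : i * D1 ≤ a.1.val * D1 + a.2.val := by
            rw [ha, e1] at h4
            exact Nat.le_of_mul_le_mul_left h4 hQ
          have e3 : a.1.val * D1 + a.2.val ≤ i * D1 + κ0 := by
            have : Q * (a.1.val * D1 + a.2.val) ≤ Q * (i * D1 + κ0) := by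
              rw [← ha]
              calc j ≤ i * (Q * D1) + Q * κ0 := h5
                _ = _ := by ring
            exact Nat.le_of_mul_le_mul_left this hQ
          rcases Nat.lt_trichotomy a.1.val i with h8 | h8 | h8
          · have : (a.1.val + 1) * D1 ≤ i * D1 := Nat.mul_le_mul_right _ h8
            rw [add_mul, one_mul] at this
            omega
          · exact h8
          · have : (i + 1) * D1 ≤ a.1.val * D1 := Nat.mul_le_mul_right _ h8
            rw [add_mul, one_mul] at this
            omega
        refine ⟨a.2, ?_, ?_⟩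
        · rw [← h7, ← ha]
          exact h3
        · rw [← h7, ← ha]
      · rintro ⟨a, ha, rfl⟩
        refine ⟨⟨?_, ?_⟩, ha⟩
        · have : i * (Q * D1) = Q * (i * D1) := by ring
          rw [this]
          have : Q * (i * D1) ≤ Q * (i * D1 + a.val) := Nat.mul_le_mul_left _ (by omega)
          omega
        · have e1 : n + i * (Q * D1) + Q * κ0 = n + Q * (i * D1 + κ0) := by ring
          rw [e1]
          have ha2 := a.isLt
          have : Q * (i * D1 + a.val) ≤ Q * (i * D1 + κ0) := Nat.mul_le_mul_left _ (by omega)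
          omega
    rw [h1, Finset.card_image_of_injective]
    intro a b hab
    have h2 : Q * (i * D1 + a.val) = Q * (i * D1 + b.val) := by
      have := hab
      simp only at this
      omega
    have h3 := Nat.eq_of_mul_eq_mul_left hQ h2
    exact Fin.ext (by omega)
  have hcard : ∀ (p : ℕ → Prop) [DecidablePred p],
      ((range M).filter (fun i => p (pc (n + i * (Q * D1)) (n + i * (Q * D1) + Q * κ0)))).card =
      (univ.filter (fun i : Fin M =>
        p (hits (fun a : Fin M × Fin κ0 => Q * (a.1.val * D1 + a.2.val)) n i))).card := by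
    intro p _
    rw [Finset.card_filter, Finset.card_filter, Finset.sum_range]
    refine Finset.sum_congr rfl fun i _ => ?_
    rw [hpc i.val i.isLt]
  refine ⟨n, Q * D1, (le_max_left _ _).trans hn, ?_, ?_, ?_, ?_, ?_⟩
  · calc D ≤ 1 * D1 := by omega
      _ ≤ Q * D1 := Nat.mul_le_mul_right _ hQ
  · have : 2 * (Q * κ0) = Q * (2 * κ0) := by ring
    rw [this]
    exact Nat.mul_lt_mul_of_pos_left (by omega) hQ
  · intro q hq h1 h2
    obtain ⟨j, rfl⟩ : ∃ j, q = n + j := ⟨q - n, by omega⟩
    have h6 : j ≤ Q * M * D1 := by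
      have : M * (Q * D1) = Q * M * D1 := by ring
      omega
    obtain ⟨a, ha⟩ := hpr n hmod (le_trans (le_max_right _ _) hn) j h6 hq
    refine ⟨a.1.val, a.1.isLt, ?_, ?_⟩
    · rw [ha]
      have : a.1.val * (Q * D1) = Q * (a.1.val * D1) := by ring
      rw [this]
      have : Q * (a.1.val * D1) ≤ Q * (a.1.val * D1 + a.2.val) := Nat.mul_le_mul_left _ (by omega)
      omega
    · rw [ha]
      have e1 : n + a.1.val * (Q * D1) + Q * κ0 = n + Q * (a.1.val * D1 + κ0) := by ring
      rw [e1]
      have ha2 := a.2.isLt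
      have : Q * (a.1.val * D1 + a.2.val) ≤ Q * (a.1.val * D1 + κ0) :=
        Nat.mul_le_mul_left _ (by omega)
      omega
  · rw [hcard (fun r => r = 1)]
    exact hs
  · rw [hcard (fun r => r = 1), hcard (fun r => 2 ≤ r)]
    exact hm

end Pool.Agent.Helper1.MT
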