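import Pool.Agent.Helper1.MT.Defs

/-!
# Project MT: preparations for the sieve bounds
-/

set_option autoImplicit false

open Finset Filter
open scoped ArithmeticFunction.vonMangoldt

namespace Pool.Agent.Helper1.MT

section Abs

variable {ι κ : Type} [Fintype ι] [Fintype κ] [DecidableEq ι] [DecidableEq κ]

theorem ws_supp (w : ι → ℝ) (c : ι → Option κ) : ws w (supp c) = ∏ i : κ, ws w (cls c i) := by
  unfold ws
  rw [← Finset.prod_biUnion]
  · congr 1
    ext p
    simp only [supp, cls, mem_filter, mem_univ, true_and, mem_biUnion]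
    exact Option.ne_none_iff_exists'
  · intro i _ j _ hij
    rw [Function.onFun, Finset.disjoint_left]
    intro p hp hq
    simp only [cls, mem_filter, mem_univ, true_and] at hp hq
    exact hij (Option.some_injective _ (hp.symm.trans hq))

theorem ws_nonneg {w : ι → ℝ} (hw : ∀ p, 0 ≤ w p) (S : Finset ι) : 0 ≤ ws w S :=
  Finset.prod_nonneg fun p _ => hw p

theorem yw_abs_le {K : ℕ} {w t : ι → ℝ} {γ : Finset ι → ℝ} {τ η : ℝ} (hG : Good K w t γ τ η)
    (c : ι → Option κ) : |yw t γ c| ≤ 1 := by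
  unfold yw
  rw [abs_mul, abs_pow, abs_neg, abs_one, one_pow, one_mul]
  split_ifs
  · rw [abs_of_nonneg (Finset.prod_nonneg fun i _ => hG.g_nonneg _)]
    exact Finset.prod_le_one (fun i _ => hG.g_nonneg _) fun i _ => hG.g_le _
  · simp

theorem yw_supp {t : ι → ℝ} {γ : Finset ι → ℝ} {c : ι → Option κ} (h : yw t γ c ≠ 0) :
    T t (supp c) ≤ 1 := by
  unfold yw at h
  by_contra h1
  rw [if_neg h1, mul_zero] at h
  exact h rfl

theorem energy_le (hT : TupleSum) {K : ℕ} {w t : ι → ℝ} {γ : Finset ι → ℝ} {τ η : ℝ}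
    (hG : Good K w t γ τ η) :
    ∑ c : ι → Option κ, ws w (supp c) * yw t γ c ^ 2 ≤ B1 w γ ^ (Fintype.card κ) := by
  have h1 := hT ι κ (fun _ S => γ S ^ 2 * ws w S)
    (fun i S => mul_nonneg (sq_nonneg _) (ws_nonneg hG.w_nonneg S))
  simp only [Finset.prod_const, Finset.card_univ] at h1
  refine le_trans (Finset.sum_le_sum fun c _ => ?_) h1
  rw [Finset.prod_mul_distrib, ← ws_supp]
  have h2 : yw t γ c ^ 2 ≤ ∏ i : κ, γ (cls c i) ^ 2 := by
    unfold yw
    rw [mul_pow, ← pow_mul, mul_comm _ 2, pow_mul, neg_one_sq, one_pow, one_mul]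
    split_ifs
    · rw [Finset.prod_pow]
    · rw [zero_pow two_ne_zero]
      exact Finset.prod_nonneg fun i _ => sq_nonneg _
  rw [mul_comm]
  exact mul_le_mul_of_nonneg_right h2 (ws_nonneg hG.w_nonneg _)

theorem B1_nonneg {K : ℕ} {w t : ι → ℝ} {γ : Finset ι → ℝ} {τ η : ℝ} (hG : Good K w t γ τ η) :
    0 ≤ B1 w γ :=
  Finset.sum_nonneg fun S _ => mul_nonneg (sq_nonneg _) (ws_nonneg hG.w_nonneg S)

theorem A1_nonneg {K : ℕ} {w t : ι → ℝ} {γ : Finset ι → ℝ} {τ η : ℝ} (hG : Good K w t γ τ η) :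
    0 ≤ A1 w γ :=
  Finset.sum_nonneg fun S _ => mul_nonneg (hG.g_nonneg _) (ws_nonneg hG.w_nonneg S)

end Abs

theorem lev_tendsto : Tendsto lev atTop atTop :=
  (tendsto_nat_floor_atTop (α := ℝ)).comp (tendsto_rpow_atTop (by norm_num))

theorem lev_log : ∀ᶠ x : ℝ in atTop, Real.log x ≤ 82 * Real.log (lev x) := by
  have h1 : ∀ᶠ x : ℝ in atTop, 1 ≤ lev x := lev_tendsto.eventually_ge_atTop 1
  filter_upwards [h1, eventually_ge_atTop (1 : ℝ),
    Real.tendsto_log_atTop.eventually_ge_atTop (10000 : ℝ)] with x hx hx1 hx2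
  have h2 : x ^ (1 / 81 : ℝ) < lev x + 1 := Nat.lt_floor_add_one _
  have h3 : (lev x : ℝ) + 1 ≤ 2 * lev x := by
    have : (1 : ℝ) ≤ lev x := by exact_mod_cast hx
    linarith
  have hpos : 0 < x ^ (1 / 81 : ℝ) := Real.rpow_pos_of_pos (by linarith) _
  have h4 : Real.log (x ^ (1 / 81 : ℝ)) ≤ Real.log (2 * lev x) :=
    Real.log_le_log hpos (h2.le.trans h3)
  rw [Real.log_rpow (by linarith), Real.log_mul (by norm_num) (by positivity)] at h4
  have h5 := Real.log_two_lt_d9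
  linarith

/-- The primes in `PS R W` are large. -/
theorem PS_large {D0 R W : ℕ} (hs : ∀ p : ℕ, p.Prime → p < D0 → p ∣ W) (p : PS R W) :
    D0 ≤ (p : ℕ) := by
  have h := p.2
  simp only [PS, mem_filter] at h
  by_contra h1
  exact h.2.2 (hs _ h.2.1 (by omega))

theorem PS_prime {R W : ℕ} (p : PS R W) : (p : ℕ).Prime := by
  have h := p.2
  simp only [PS, mem_filter] at h
  exact h.2.1

theorem PS_le {R W : ℕ} (p : PS R W) : (p : ℕ) ≤ R := by
  have h := p.2
  simp only [PS, mem_filter, mem_range] at h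
  omega

/-- If `n + h m` is a prime larger than `R` then no prime of `PS R W` has colour `m`. -/
theorem cls_empty {κ : Type} [DecidableEq κ] {R W : ℕ} {h : κ → ℕ} {c : PS R W → Option κ} {n : ℕ}
    {m : κ} (hc : Dv h c n) (hp : (n + h m).Prime) (hR : R < n + h m) : cls c m = ∅ := by
  rw [Finset.eq_empty_iff_forall_notMem]
  intro p hq
  simp only [cls, mem_filter, mem_univ, true_and] at hq
  have h1 := hc p m hq
  have h2 := (Nat.prime_dvd_prime_iff_eq (PS_prime p) hp).1 h1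
  have h3 := PS_le p
  omega

theorem NS_gt {x : ℝ} {W v n : ℕ} (h : n ∈ NS x W v) (hx : 1 ≤ x) : lev x < n := by
  unfold NS at h
  rw [mem_filter, mem_Ioc] at h
  refine lt_of_le_of_lt ?_ h.1.1
  exact Nat.floor_le_floor (Real.rpow_le_rpow_of_exponent_le hx (by norm_num))

theorem NS_mod {x : ℝ} {W v n : ℕ} (h : n ∈ NS x W v) : n ≡ v [MOD W] := by
  unfold NS at h
  rw [mem_filter] at h
  exact h.2

theorem NS_floor {x : ℝ} {W v n : ℕ} (h : n ∈ NS x W v) : ⌊x ^ (1 / 2 : ℝ)⌋₊ < n := by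
  unfold NS at h
  rw [mem_filter, mem_Ioc] at h
  exact h.1.1

end Pool.Agent.Helper1.MT
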