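import Pool.Agent.Helper1.MT.Num

/-!
# Project MT: auxiliary statements for the sieve bounds
-/

set_option autoImplicit false

open Finset Filter

namespace Pool.Agent.Helper1.MT

theorem lev_log_sq {a : ℝ} (ha : 0 < a) :
    ∀ᶠ x : ℝ in atTop, (a * Real.log (lev x)) ^ 2 ≤ lev x := by
  have h1 : ∀ᶠ R : ℕ in atTop, a ^ 2 * Real.log R ^ 2 ≤ R := by
    have h2 : Tendsto (fun y : ℝ => Real.log y ^ 2 / (1 * y + 0)) atTop (nhds 0) :=
      Real.tendsto_pow_log_div_mul_add_atTop 1 0 2 one_ne_zero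
    have ha2 : (0 : ℝ) < a ^ 2 := pow_pos ha 2
    have h3 := (h2.comp tendsto_natCast_atTop_atTop).eventually
      (gt_mem_nhds (one_div_pos.2 ha2))
    filter_upwards [h3, eventually_gt_atTop 0] with R hR hR0
    have hRr : (0 : ℝ) < R := by exact_mod_cast hR0
    simp only [Function.comp_apply, one_mul, add_zero] at hR
    rw [div_lt_div_iff₀ hRr ha2] at hR
    linarith
  filter_upwards [lev_tendsto.eventually h1] with x hx
  rw [mul_pow]
  exact hx

theorem lev_log_large {a : ℝ} (ha : 0 < a) : ∀ᶠ x : ℝ in atTop, 1 ≤ a * Real.log (lev x) := by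
  have h1 : Tendsto (fun x : ℝ => a * Real.log (lev x)) atTop atTop :=
    (Real.tendsto_log_atTop.comp (tendsto_natCast_atTop_atTop.comp lev_tendsto)).const_mul_atTop ha
  exact h1.eventually_ge_atTop 1

theorem sw_term_nonneg {κ : Type} [Fintype κ] [DecidableEq κ] {R W : ℕ} (h : κ → ℕ)
    (f : (PS R W → Option κ) → ℝ) (n : ℕ) : 0 ≤ 1 / (n : ℝ) * sw h f n := by
  unfold sw
  positivity

theorem good_mul_le {ι : Type} [Fintype ι] [DecidableEq ι] {K : ℕ} {w t : ι → ℝ}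
    {γ : Finset ι → ℝ} {τ η : ℝ} (hG : Good K w t γ τ η) (p : ι) :
    (K : ℝ) * w p ≤ 1 ∧ ((K : ℝ) + 1) * w p ≤ 1 := by
  have h1 := hG.w_le p
  have h0 := hG.w_nonneg p
  have h2 : 0 ≤ (K : ℝ) * w p := mul_nonneg (Nat.cast_nonneg K) h0
  constructor <;> linarith

theorem num_star_end {E Q Lx B V Sg S lR lx err P : ℝ} {D0 K : ℕ} (hD0 : 0 < D0) (hV0 : 0 < V)
    (hlx : 0 < lx) (hx : lx ≤ 82 * lR) (hV : 9 / 10 * (1 / (32 * (D0 : ℝ)) * lR) ≤ V)
    (hE : E * V ≤ 2 * B ^ K * P) (hP : P ≤ Sg) (hSg : 1 ≤ Sg) (hB : 1 ≤ B) (hLx : 0 < Lx)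
    (hQ : Q ≤ E) (hS : S = Lx * B ^ K) (herr : err * lx ≤ S) :
    Lx * Q + err ≤ 6000 * D0 / lx * Sg * S := by
  have hB0 : 0 < B := by linarith
  have hS0 : 0 < S := by
    rw [hS]
    positivity
  have hSg0 : 0 < Sg := by linarith
  have hD0r : (1 : ℝ) ≤ D0 := by exact_mod_cast hD0
  have h7 : E ≤ 2 * B ^ K * Sg / V := by
    rw [le_div_iff₀ hV0]
    refine hE.trans ?_
    gcongr
  have h8 : Lx * Q ≤ 2 * Sg / V * S := by
    calc Lx * Q ≤ Lx * E := mul_le_mul_of_nonneg_left hQ hLx.le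
      _ ≤ Lx * (2 * B ^ K * Sg / V) := mul_le_mul_of_nonneg_left h7 hLx.le
      _ = _ := by rw [hS]; ring
  have h9 : 2 * Sg / V * S ≤ 5999 * D0 / lx * Sg * S := by
    have e1 : 1 / V ≤ 2999 * D0 / lx := num_star hD0 hV0 hlx hx hV
    calc 2 * Sg / V * S = 2 * (1 / V) * Sg * S := by ring
      _ ≤ 2 * (2999 * D0 / lx) * Sg * S := by gcongr
      _ = 5998 * D0 / lx * Sg * S := by ring
      _ ≤ _ := by gcongr; norm_num
  have h10 : err ≤ D0 / lx * Sg * S := by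
    have e1 : err ≤ S / lx := by
      rw [le_div_iff₀ hlx]
      exact herr
    calc err ≤ S / lx := e1
      _ = 1 / lx * 1 * S := by ring
      _ ≤ _ := by gcongr
  have h11 : 6000 * D0 / lx * Sg * S = 5999 * D0 / lx * Sg * S + D0 / lx * Sg * S := by ring
  rw [h11]
  linarith

end Pool.Agent.Helper1.MT
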