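import Pool.Agent.Helper1.MT.BoundsAux

/-!
# Project MT: from the modules to the sieve bounds
-/

set_option autoImplicit false

open Finset Filter
open scoped ArithmeticFunction.vonMangoldt

namespace Pool.Agent.Helper1.MT

/-- The sieve bounds. -/
theorem bounds (hT : TupleSum) (hG1 : GramUpper) (hG2 : GramLower) (hL : LowerMain)
    (hP : PairMajorant) (hN1 : SumAll) (hN2 : SumPrime) (hA : OneDim) :
    ∃ c1 : ℝ, 0 < c1 ∧ ∀ (κ : Type) [Fintype κ] [DecidableEq κ] (J D0 : ℕ) (h : κ → ℕ) (W v : ℕ),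
      0 < Fintype.card κ → 10 * 2 ^ J ≤ 8 * Fintype.card κ * (J + 2) →
      (Fintype.card κ + 2) ^ 10 ≤ D0 → Setup D0 h W v → ∀ (Y : ℝ) (N : ℕ),
      ∃ (F : Finset ℕ) (u : ℕ → ℝ) (S : ℝ), (∀ n ∈ F, N ≤ n ∧ n ≡ v [MOD W]) ∧
        (∀ n, 0 ≤ u n) ∧ Y ≤ S ∧ ∑ n ∈ F, u n ≤ S + 1 ∧
        (∀ m : κ, c1 * ((J + 2) / Fintype.card κ) * S - 1 ≤
          ∑ n ∈ F.filter (fun n => (n + h m).Prime), u n) ∧
        (∀ m m' : κ, m ≠ m' →
          ∑ n ∈ F.filter (fun n => (n + h m).Prime ∧ (n + h m').Prime), u n ≤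
            ((J + 2) / (10 * Fintype.card κ)) ^ 2 * S + 1) := by
  classical
  obtain ⟨c0, hc0, hN2⟩ := hN2
  refine ⟨c0 / 25000, by positivity, ?_⟩
  intro κ _ _ J D0 h W v hK hJ hD hS Y N
  set K := Fintype.card κ with hKdef
  obtain ⟨c, hc, hcW, R0, hR03, hR0⟩ := hA K J D0 W hK hJ hD hS.W_pos hS.small
  obtain ⟨X1, hX13, hX1⟩ := hN1 κ D0 h W v hD hS
  have hN2' := fun m => hN2 κ D0 h W v hD hS m
  choose X2 hX23 hX2 using hN2'
  have hKr : (0 : ℝ) < K := by exact_mod_cast hK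
  have hKp : 0 < Kp K J := by unfold Kp; positivity
  have hWr : (0 : ℝ) < W := by exact_mod_cast hS.W_pos
  have hphi : (0 : ℝ) < W.totient := by exact_mod_cast Nat.totient_pos.2 hS.W_pos
  have ha1 : 0 < 11 / 10 * (J + 2 : ℝ) / (2 * Kp K J) := by positivity
  have ha2 : 0 < 9 / 10 / Kp K J := by positivity
  -- large x
  have hev : ∀ᶠ x : ℝ in atTop, X1 ≤ x ∧ (∀ m, X2 m ≤ x) ∧ R0 ≤ lev x ∧
      Real.log x ≤ 82 * Real.log (lev x) ∧
      (11 / 10 * (J + 2 : ℝ) / (2 * Kp K J) * c * Real.log (lev x)) ^ 2 ≤ lev x ∧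
      1 ≤ 9 / 10 / Kp K J * c * Real.log (lev x) ∧ Y * (2 * W) ≤ Real.log x ∧
      N ≤ ⌊x ^ (1 / 2 : ℝ)⌋₊ ∧ 3 ≤ x := by
    refine (eventually_ge_atTop X1).and (((eventually_all).2 fun m =>
      eventually_ge_atTop (X2 m)).and ((lev_tendsto.eventually_ge_atTop R0).and
      (lev_log.and ((lev_log_sq (mul_pos ha1 hc)).and ((lev_log_large (mul_pos ha2 hc)).and
      ((Real.tendsto_log_atTop.eventually_ge_atTop _).and
      ((((tendsto_nat_floor_atTop (α := ℝ)).comp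
        (tendsto_rpow_atTop (by norm_num))).eventually_ge_atTop N).and
        (eventually_ge_atTop 3))))))))
  obtain ⟨x, hx1, hx2, hxR, hxl, hxA, hxB, hxY, hxN, hx3⟩ := hev.exists
  rw [mul_assoc] at hxA hxB
  set R := lev x with hRdef
  obtain ⟨hGood, hM1, hAl, hAu, hBl, hBu, hV⟩ := hR0 R hxR
  set w := wp R W with hw
  set w' := wp' R W with hw'
  set t := tp R W with ht
  set γ : Finset (PS R W) → ℝ := gam K J with hγ
  set A := A1 w γ with hAdef
  set B := B1 w γ with hBdef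
  set V := V0 w t with hVdef
  set L := c * Real.log R with hLdef
  have hR3 : 3 ≤ R := hR03.trans hxR
  have hlogR : 0 < Real.log R := Real.log_pos (by exact_mod_cast (by omega : 1 < R))
  have hL0 : 0 < L := mul_pos hc hlogR
  have hlogx : 0 < Real.log x := Real.log_pos (by linarith)
  have hA0 : 0 ≤ A := A1_nonneg hGood
  have hB1 : 1 ≤ B := hxB.trans hBl
  have hV0 : 0 < V := lt_of_lt_of_le (mul_pos (by norm_num) hL0) hV
  have hRr : (1 : ℝ) ≤ R := by exact_mod_cast (by omega : 1 ≤ R)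
  -- the weights 1/(p-1)
  have hpD : ∀ p : PS R W, ((K : ℝ) + 2) ≤ ((p : ℕ) : ℝ) := by
    intro p
    have h1 := PS_large hS.small p
    have h2 : K + 2 ≤ (K + 2) ^ 10 := Nat.le_self_pow (by norm_num) _
    exact_mod_cast (h2.trans hD).trans h1
  obtain ⟨hw'0, hw'K, hww', hww2⟩ := wp_facts hpD
  -- S
  set Lx := Real.log x / (2 * W) with hLx
  have hLx0 : 0 < Lx := div_pos hlogx (mul_pos two_pos hWr)
  set S := Lx * B ^ K with hSdef
  refine ⟨NS x W v, fun n => 1 / (n : ℝ) * sw h (lam w (yw t γ)) n, S, ?_, ?_, ?_, ?_, ?_, ?_⟩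
  · intro n hn
    exact ⟨hxN.trans (NS_floor hn).le, NS_mod hn⟩
  · exact fun n => sw_term_nonneg _ _ n
  · have h1 : Y ≤ Lx := by
      rw [hLx, le_div_iff₀ (mul_pos two_pos hWr)]
      exact hxY
    refine h1.trans ?_
    rw [hSdef]
    exact le_mul_of_one_le_right hLx0.le (one_le_pow₀ hB1)
  · -- total
    have h1 := hX1 x hx1 (yw t γ) (fun c => (yw_abs_le hGood c).trans hRr)
      (fun c hc => (yw_supp hc).trans (by norm_num))
    have h2 := hG1 (PS R W) κ w (yw t γ) hGood.w_nonneg (fun p => (good_mul_le hGood p).1)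
    have h3 := h2.trans (energy_le hT hGood)
    have h4 := (abs_le.1 h1).2
    have h5 : Lx * Qf (fun p => pr κ (w p)) (lam w (yw t γ)) ≤ S :=
      mul_le_mul_of_nonneg_left h3 hLx0.le
    linarith
  · -- primes
    intro m
    have h1 := hX2 m x (hx2 m) (yw t γ) (fun c => yw_abs_le hGood c) (fun c hc => yw_supp hc)
    have h2 := hG2 (PS R W) κ w w' m (yw t γ) hw'0 hw'K
    have h3 := hL (PS R W) κ w w' t γ _ _ hGood hww' hww2 hM1 m
    have h4 := h3.trans h2
    refine le_trans ?_ h1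
    have h5 : c0 / 25000 * ((J + 2) / (K : ℝ)) * S ≤ c0 / (W.totient : ℝ) *
        (1 / 2 * (A ^ 2 * B ^ (K - 1))) :=
      num_prime hK hc0 hc hphi hWr hcW hLdef hlogR hlogx hxl hB1 hAl hBu
    have h6 : c0 / (W.totient : ℝ) * (1 / 2 * (A ^ 2 * B ^ (K - 1))) ≤
        c0 / (W.totient : ℝ) * Qf (fun p => prm m (w' p)) (lam w (yw t γ)) :=
      mul_le_mul_of_nonneg_left h4 (div_pos hc0 hphi).le
    linarith
  · -- pairs
    intro m m' hmm
    obtain ⟨y', hy1, hy2, hy3, hy4⟩ := hP (PS R W) κ w t γ _ _ hGood m m' hmm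
    have hAR : A ^ 2 ≤ R := (pow_le_pow_left₀ hA0 hAu 2).trans hxA
    have h1 := hX1 x hx1 y' (fun c => (hy3 c).trans hAR) hy2
    have h2 := hG1 (PS R W) κ w y' hGood.w_nonneg (fun p => (good_mul_le hGood p).1)
    have h4 := (abs_le.1 h1).2
    have hK2 : 2 ≤ K := by
      rw [hKdef]
      exact Fintype.one_lt_card_iff.2 ⟨m, m', hmm⟩
    -- the weights agree
    have h5 : ∀ n ∈ (NS x W v).filter (fun n => (n + h m).Prime ∧ (n + h m').Prime),
        sw h (lam w (yw t γ)) n = sw h (lam w y') n := by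
      intro n hn
      rw [mem_filter] at hn
      have hgt := NS_gt hn.1 (by linarith)
      unfold sw
      congr 1
      refine Finset.sum_congr rfl fun c hc => ?_
      rw [mem_filter] at hc
      exact (hy1 c (cls_empty hc.2 hn.2.1 (by omega)) (cls_empty hc.2 hn.2.2 (by omega))).symm
    have h6 : ∑ n ∈ (NS x W v).filter (fun n => (n + h m).Prime ∧ (n + h m').Prime),
        1 / (n : ℝ) * sw h (lam w (yw t γ)) n ≤ ∑ n ∈ NS x W v, 1 / (n : ℝ) * sw h (lam w y') n := by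
      rw [Finset.sum_congr rfl fun n hn => by rw [h5 n hn]]
      exact Finset.sum_le_sum_of_subset_of_nonneg (Finset.filter_subset _ _)
        fun n _ _ => sw_term_nonneg _ _ n
    have h7 : Lx * Qf (fun p => pr κ (w p)) (lam w y') ≤
        ((J + 2) / (10 * (K : ℝ))) ^ 2 * S := by
      set E := ∑ c : PS R W → Option κ, ws w (supp c) * y' c ^ 2 with hE
      have e9 : E ≤ ((J + 2) / (10 * (K : ℝ))) ^ 2 * B ^ K :=
        num_pair hK2 hL0 hA0 (by linarith) hV0 hAu hBl hV hy4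
      calc Lx * Qf (fun p => pr κ (w p)) (lam w y') ≤ Lx * E :=
            mul_le_mul_of_nonneg_left h2 hLx0.le
        _ ≤ Lx * (((J + 2) / (10 * (K : ℝ))) ^ 2 * B ^ K) :=
            mul_le_mul_of_nonneg_left e9 hLx0.le
        _ = _ := by rw [hSdef]; ring
    linarith

end Pool.Agent.Helper1.MT
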