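import Pool.Agent.Helper1.MT.DefsU
import Pool.Agent.Helper1.MT.Bounds

/-!
# Project MT, part 2: numerical inequalities for the sieve bounds
-/

set_option autoImplicit false

open Finset

namespace Pool.Agent.Helper1.MT

theorem num_prime {c0 c φ W A B L lR lx : ℝ} {K J : ℕ} (hK : 0 < K) (hc0 : 0 < c0) (hc : 0 < c)
    (hφ : 0 < φ) (hW : 0 < W) (hcW : φ / (4 * W) ≤ c) (hL : L = c * lR) (hlR : 0 < lR)
    (hlx : 0 < lx) (hx : lx ≤ 82 * lR) (hB : 1 ≤ B)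
    (hAl : 9 / 10 * (J + 2 : ℝ) / (2 * Kp K J) * L ≤ A) (hBu : B ≤ 16 / 10 / Kp K J * L) :
    c0 / 25000 * ((J + 2) / (K : ℝ)) * (lx / (2 * W) * B ^ K) ≤ c0 / φ *
        (1 / 2 * (A ^ 2 * B ^ (K - 1))) := by
  have hKr : (0 : ℝ) < K := by exact_mod_cast hK
  have hKp : 0 < Kp K J := by unfold Kp; positivity
  have hL0 : 0 < L := by rw [hL]; positivity
  have hBK : B ^ K = B ^ (K - 1) * B := by
    rw [← pow_succ]
    congr 1
    omega
  have key : 1 / 25000 * ((J + 2) / (K : ℝ)) * (lx * φ / W * B) ≤ A ^ 2 := by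
    have e1 : lx * φ / W * B ≤ 82 * lR * (4 * c) * (16 / 10 / Kp K J * L) := by
      have e2 : φ / W ≤ 4 * c := by
        have : φ / W = 4 * (φ / (4 * W)) := by
          field_simp
        rw [this]
        linarith
      calc lx * φ / W * B = lx * (φ / W) * B := by ring
        _ ≤ _ := by gcongr
    have e3 : A ^ 2 ≥ (9 / 10 * (J + 2 : ℝ) / (2 * Kp K J) * L) ^ 2 := by gcongr
    have e4 : 1 / 25000 * ((J + 2) / (K : ℝ)) * (82 * lR * (4 * c) *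
        (16 / 10 / Kp K J * L)) ≤ (9 / 10 * (J + 2 : ℝ) / (2 * Kp K J) * L) ^ 2 := by
      have e5 : (9 / 10 * (J + 2 : ℝ) / (2 * Kp K J) * L) ^ 2 =
          (81 / 3200 : ℝ) * (((J + 2) / K) * (L ^ 2 / Kp K J)) := by
        unfold Kp
        field_simp
        ring
      have e6 : 1 / 25000 * ((J + 2) / (K : ℝ)) * (82 * lR * (4 * c) *
        (16 / 10 / Kp K J * L)) = (5248 / 250000 : ℝ) * (((J + 2) / K) * (L ^ 2 / Kp K J)) := by
        rw [hL]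
        ring
      rw [e5, e6]
      have : 0 ≤ ((J + 2) / (K : ℝ)) * (L ^ 2 / Kp K J) := by positivity
      linarith
    calc _ ≤ 1 / 25000 * ((J + 2) / (K : ℝ)) * (82 * lR * (4 * c) *
        (16 / 10 / Kp K J * L)) := by gcongr
      _ ≤ _ := e4.trans e3
  rw [hBK]
  have hB' : 0 ≤ B ^ (K - 1) := by positivity
  have e7 : c0 / 25000 * ((J + 2) / (K : ℝ)) * (lx / (2 * W) * (B ^ (K - 1) * B)) =
      c0 / φ * (1 / 2 * ((1 / 25000 * ((J + 2) / (K : ℝ)) *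
        (lx * φ / W * B)) * B ^ (K - 1))) := by
    field_simp
  rw [e7]
  gcongr

theorem num_pair {A B L V E : ℝ} {K J : ℕ} (hK : 2 ≤ K) (hL0 : 0 < L) (hA0 : 0 ≤ A) (hB0 : 0 < B)
    (hV0 : 0 < V) (hAu : A ≤ 11 / 10 * (J + 2 : ℝ) / (2 * Kp K J) * L)
    (hBl : 9 / 10 / Kp K J * L ≤ B) (hV : 9 / 10 * L ≤ V)
    (hE : E * V ^ 2 ≤ 4 * (A ^ 4 * B ^ (K - 2))) :
    E ≤ ((J + 2) / (10 * (K : ℝ))) ^ 2 * B ^ K := by
  have hKr : (0 : ℝ) < K := by exact_mod_cast (by omega : 0 < K)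
  have hKp : 0 < Kp K J := by unfold Kp; positivity
  have e1 : E * V ^ 2 ≤ ((J + 2) / (10 * (K : ℝ))) ^ 2 * B ^ K * V ^ 2 := by
    refine hE.trans ?_
    have hBK : B ^ K = B ^ (K - 2) * B ^ 2 := by
      rw [← pow_add]
      congr 1
      omega
    have e2 : 2 * A ^ 2 ≤ (J + 2) / (10 * (K : ℝ)) * (B * V) := by
      have e3 : 2 * A ^ 2 ≤ 2 * (11 / 10 * (J + 2 : ℝ) / (2 * Kp K J) * L) ^ 2 := by gcongr
      have e4 : (9 / 10 / Kp K J * L) * (9 / 10 * L) ≤ B * V := by gcongr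
      have e5 : 2 * (11 / 10 * (J + 2 : ℝ) / (2 * Kp K J) * L) ^ 2 =
          (121 / 1600 : ℝ) * (((J + 2) / K) * (L ^ 2 / Kp K J)) := by
        unfold Kp
        field_simp
        ring
      have e6 : (J + 2) / (10 * (K : ℝ)) * ((9 / 10 / Kp K J * L) * (9 / 10 * L)) =
          (81 / 1000 : ℝ) * (((J + 2) / K) * (L ^ 2 / Kp K J)) := by
        field_simp
        ring
      have e7 : 0 ≤ ((J + 2) / (K : ℝ)) * (L ^ 2 / Kp K J) := by positivity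
      calc 2 * A ^ 2 ≤ (121 / 1600 : ℝ) * (((J + 2) / K) * (L ^ 2 / Kp K J)) := e3.trans e5.le
        _ ≤ (81 / 1000 : ℝ) * (((J + 2) / K) * (L ^ 2 / Kp K J)) := by linarith
        _ = (J + 2) / (10 * (K : ℝ)) * ((9 / 10 / Kp K J * L) * (9 / 10 * L)) := e6.symm
        _ ≤ _ := by gcongr
    have e8 : (2 * A ^ 2) ^ 2 ≤ ((J + 2) / (10 * (K : ℝ)) * (B * V)) ^ 2 := by gcongr
    rw [hBK]
    calc 4 * (A ^ 4 * B ^ (K - 2)) = (2 * A ^ 2) ^ 2 * B ^ (K - 2) := by ring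
      _ ≤ ((J + 2) / (10 * (K : ℝ)) * (B * V)) ^ 2 * B ^ (K - 2) := by gcongr
      _ = _ := by ring
  exact le_of_mul_le_mul_right e1 (by positivity)

theorem num_star {V lR lx : ℝ} {D0 : ℕ} (hD0 : 0 < D0) (hV0 : 0 < V) (hlx : 0 < lx)
    (hx : lx ≤ 82 * lR) (hV : 9 / 10 * (1 / (32 * (D0 : ℝ)) * lR) ≤ V) :
    1 / V ≤ 2999 * D0 / lx := by
  have hD0r : (0 : ℝ) < D0 := by exact_mod_cast hD0
  rw [div_le_div_iff₀ hV0 hlx]
  have e3 : 2999 * (D0 : ℝ) * (9 / 10 * (1 / (32 * (D0 : ℝ)) * lR)) ≤ 2999 * D0 * V := by gcongr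
  have e4 : 2999 * (D0 : ℝ) * (9 / 10 * (1 / (32 * (D0 : ℝ)) * lR)) = (2999 * 9 / 320) * lR := by
    field_simp
    ring
  rw [e4] at e3
  linarith

theorem num_err {lx A0 err Lx W S εs : ℝ} (hlx : 2 ≤ lx) (hW : 0 < W) (hWA : W ≤ lx ^ A0)
    (hLx : Lx = lx / (2 * W)) (hS : Lx ≤ S) (herr : err = 1 / lx ^ (A0 + 2)) (hε : 0 < εs)
    (hε2 : 2 / εs ≤ lx) : err * lx ≤ S ∧ err ≤ S ∧ err ≤ εs * S := by
  have hlx0 : 0 < lx := by linarith
  have hpow := Real.rpow_nonneg hlx0.le A0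
  have herr0 : 0 ≤ err := by
    rw [herr]
    positivity
  have h1 : err * lx ≤ S := by
    refine le_trans ?_ hS
    have e2 : lx ^ (A0 + 2) = lx ^ A0 * lx ^ 2 := by
      rw [Real.rpow_add hlx0, Real.rpow_ofNat]
    rw [herr, hLx, e2, div_mul_eq_mul_div, one_mul,
      div_le_div_iff₀ (by positivity) (by positivity)]
    have e4 : 2 * W ≤ lx ^ A0 * lx ^ 2 := by
      have e5 : (2 : ℝ) ≤ lx ^ 2 := by nlinarith
      calc 2 * W ≤ lx ^ 2 * lx ^ A0 := by gcongr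
        _ = _ := by ring
    gcongr
  have hS0 : 0 ≤ S := le_trans (by positivity) h1
  have h2 : err * 1 ≤ err * lx := by gcongr; linarith
  refine ⟨h1, by linarith, ?_⟩
  rw [div_le_iff₀ hε] at hε2
  have e2 : err * 2 ≤ err * (lx * εs) := by gcongr
  have e3 : err * lx * εs ≤ S * εs := by gcongr
  linarith

theorem prod_le_prod_subset {α : Type} [DecidableEq α] {s t : Finset α} (hst : s ⊆ t) {f : α → ℝ}
    (hf : ∀ i ∈ t, 1 ≤ f i) : ∏ i ∈ s, f i ≤ ∏ i ∈ t, f i := by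
  rw [← Finset.prod_sdiff hst]
  refine le_mul_of_one_le_left (Finset.prod_nonneg fun i hi => ?_) (Finset.one_le_prod fun i hi => ?_)
  · have := hf i (hst hi)
    linarith
  · exact hf i (Finset.sdiff_subset hi)

theorem bad_prod {κ : Type} [Fintype κ] {R W : ℕ} (h : κ → ℕ) (j : ℕ) (hj : ∀ i, h i ≠ j)
    (bad : Finset (PS R W)) (hbad : ∀ p ∈ bad, ∃ i, (((p : PS R W) : ℕ) : ℤ) ∣ (h i : ℤ) - j) :
    ∏ p ∈ bad, (1 + wp R W p) ≤
      ∏ p ∈ (∏ i, ((h i : ℤ) - j).natAbs).primeFactors, (1 + 1 / (p : ℝ)) := by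
  classical
  have hne : (∏ i, ((h i : ℤ) - j).natAbs) ≠ 0 := by
    rw [Finset.prod_ne_zero_iff]
    intro i _
    rw [Int.natAbs_ne_zero]
    intro h0
    exact hj i (by omega)
  have e1 : ∏ p ∈ bad, (1 + wp R W p) = ∏ q ∈ bad.image (fun p : PS R W => (p : ℕ)),
      (1 + 1 / (q : ℝ)) := by
    rw [Finset.prod_image (fun p _ p' _ hpp => Subtype.ext hpp)]
    rfl
  rw [e1]
  refine prod_le_prod_subset ?_ ?_
  · intro q hq
    rw [mem_image] at hq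
    obtain ⟨p, hp, rfl⟩ := hq
    obtain ⟨i, hi⟩ := hbad p hp
    rw [Nat.mem_primeFactors]
    refine ⟨PS_prime p, ?_, hne⟩
    refine dvd_trans ?_ (Finset.dvd_prod_of_mem _ (mem_univ i))
    exact Int.natCast_dvd.1 hi
  · intro q _
    have : (0 : ℝ) ≤ 1 / (q : ℝ) := by positivity
    linarith

theorem bad_prod_ge {κ : Type} [Fintype κ] (h : κ → ℕ) (j : ℕ) :
    1 ≤ ∏ p ∈ (∏ i, ((h i : ℤ) - j).natAbs).primeFactors, (1 + 1 / (p : ℝ)) := by
  refine Finset.one_le_prod fun p _ => ?_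
  have : (0 : ℝ) ≤ 1 / (p : ℝ) := by positivity
  linarith

theorem wp_facts {K R W : ℕ} (hp2 : ∀ p : PS R W, ((K : ℝ) + 2) ≤ ((p : ℕ) : ℝ)) :
    (∀ p, 0 ≤ wp' R W p) ∧ (∀ p, (K : ℝ) * wp' R W p ≤ 1) ∧ (∀ p, wp R W p ≤ wp' R W p) ∧
      ∀ p, wp' R W p - wp R W p ≤ 2 * wp R W p ^ 2 := by
  have hK0 : (0 : ℝ) ≤ K := by positivity
  refine ⟨fun p => ?_, fun p => ?_, fun p => ?_, fun p => ?_⟩
  · have := hp2 p
    simp only [wp']
    exact div_nonneg zero_le_one (by linarith)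
  · have := hp2 p
    simp only [wp']
    rw [mul_one_div, div_le_one (by linarith)]
    linarith
  · have := hp2 p
    simp only [wp, wp']
    exact one_div_le_one_div_of_le (by linarith) (by linarith)
  · have := hp2 p
    simp only [wp, wp']
    have h1 : (0 : ℝ) < ((p : ℕ) : ℝ) := by linarith
    have h2 : (0 : ℝ) < ((p : ℕ) : ℝ) - 1 := by linarith
    have h3 : (2 : ℝ) ≤ ((p : ℕ) : ℝ) := by linarith
    rw [div_sub_div _ _ h2.ne' h1.ne', div_pow, one_pow, mul_one_div,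
      div_le_div_iff₀ (by positivity) (by positivity)]
    nlinarith [mul_pos h1 h2]

end Pool.Agent.Helper1.MT
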