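import Pool.Agent.Helper1.MT.DefsU
import Pool.Agent.Helper1.MT.Num

/-!
# Project MT, part 2: preparations for the uniform sieve bounds
-/

set_option autoImplicit false

open Finset Filter
open scoped ArithmeticFunction.vonMangoldt

namespace Pool.Agent.Helper1.MT

/-- The shifts together with one further integer `j`. -/
def ext {κ : Type} (h : κ → ℕ) (j : ℕ) : Option κ → ℕ := fun o => o.elim j h

/-- For `n + j` prime the additional colour does not occur. -/
theorem sw_star {κ : Type} [Fintype κ] [DecidableEq κ] {R W : ℕ} {h : κ → ℕ} {j n : ℕ}
    (hp : (n + j).Prime) (hR : R < n + j) {f : (PS R W → Option κ) → ℝ}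
    {f' : (PS R W → Option (Option κ)) → ℝ}
    (hf : ∀ c : PS R W → Option κ, f' (fun p => (c p).map some) = f c) :
    sw (ext h j) f' n = sw h f n := by
  classical
  unfold sw
  congr 1
  have h1 : (univ.filter (fun c : PS R W → Option (Option κ) => Dv (ext h j) c n)) =
      (univ.filter (fun c : PS R W → Option κ => Dv h c n)).image
        (fun c p => (c p).map some) := by
    ext c
    simp only [mem_filter, mem_univ, true_and, mem_image]
    constructor
    · intro hc
      have hns : ∀ p, c p ≠ some none := by
        intro p hcp
        have h2 := hc p none hcp
        have h3 := (Nat.prime_dvd_prime_iff_eq (PS_prime p) hp).1 h2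
        have h4 := PS_le p
        omega
      refine ⟨fun p => (c p).join, ?_, ?_⟩
      · intro p i hpi
        refine hc p (some i) ?_
        change (c p).join = some i at hpi
        cases hcp : c p with
        | none => rw [hcp] at hpi; simp at hpi
        | some o =>
          rw [hcp] at hpi
          simp only [Option.join_some] at hpi
          rw [hpi]
      · funext p
        change ((c p).join).map some = c p
        cases hcp : c p with
        | none => simp
        | some o =>
          cases o with
          | none => exact absurd hcp (hns p)
          | some i => simp
    · rintro ⟨c', hc', rfl⟩ p o hpo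
      change (c' p).map some = some o at hpo
      cases hcp : c' p with
      | none => rw [hcp] at hpo; simp at hpo
      | some i =>
        rw [hcp] at hpo
        simp only [Option.map_some, Option.some.injEq] at hpo
        subst hpo
        exact hc' p i hcp
  rw [h1, Finset.sum_image]
  · exact Finset.sum_congr rfl fun c _ => hf c
  · intro c _ c' _ hcc
    funext p
    exact Option.map_injective (Option.some_injective _) (congrFun hcc p)

end Pool.Agent.Helper1.MT
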