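import Pool.Agent.Helper1.MT.BoundsU
import Pool.Agent.Helper1.MT.BoundsAux

/-!
# Project MT, part 2: the sieve bounds, uniformly
-/

set_option autoImplicit false

open Finset Filter
open scoped ArithmeticFunction.vonMangoldt

namespace Pool.Agent.Helper1.MT

/-- The sieve bounds, uniformly in the shifts. -/
theorem boundsU (hT : TupleSum) (hG1 : GramUpper) (hG2 : GramLower) (hL : LowerMain)
    (hP : PairMajorant) (hSt : StarMajorant) (hN1 : SumGen) (hN2 : SumPrimeU) (hA : OneDimU) :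
    ∃ c1 : ℝ, 0 < c1 ∧ ∀ (κ : Type) [Fintype κ] [DecidableEq κ] (J D0 : ℕ) (A : ℝ),
      0 < Fintype.card κ → 10 * 2 ^ J ≤ 8 * Fintype.card κ * (J + 2) →
      (Fintype.card κ + 3) ^ 10 ≤ D0 → 1 ≤ A → ∃ X0 : ℝ, 3 ≤ X0 ∧ ∀ x : ℝ, X0 ≤ x →
      ∀ (h : κ → ℕ) (W v : ℕ), Setup D0 h W v → Reg D0 W → (W : ℝ) ≤ Real.log x ^ A →
      (∀ i, (h i : ℝ) ≤ Real.log x ^ A) →
      ∃ (u : ℕ → ℝ) (S : ℝ), (∀ n, 0 ≤ u n) ∧ 0 < S ∧ ∑ n ∈ NS x W v, u n ≤ 2 * S ∧
        (∀ m : κ, c1 * ((J + 2) / Fintype.card κ) * S ≤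
          ∑ n ∈ (NS x W v).filter (fun n => (n + h m).Prime), u n) ∧
        (∀ m m' : κ, m ≠ m' →
          ∑ n ∈ (NS x W v).filter (fun n => (n + h m).Prime ∧ (n + h m').Prime), u n ≤
            2 * ((J + 2) / (10 * Fintype.card κ)) ^ 2 * S) ∧
        (∀ j : ℕ, (∀ i, h i ≠ j) →
          ∑ n ∈ (NS x W v).filter (fun n => (n + j).Prime), u n ≤
            6000 * D0 / Real.log x *
              (∏ p ∈ (∏ i, ((h i : ℤ) - j).natAbs).primeFactors, (1 + 1 / (p : ℝ))) * S) := by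
  classical
  obtain ⟨c0, hc0, hN2⟩ := hN2
  refine ⟨c0 / 50000, by positivity, ?_⟩
  intro κ _ _ J D0 A0 hK hJ hD hA0
  set K := Fintype.card κ with hKdef
  set A' : ℝ := A0 + 2 with hA'
  have hA'0 : 0 < A' := by linarith
  have hD2 : (K + 2) ^ 10 ≤ D0 := le_trans (Nat.pow_le_pow_left (by omega) 10) hD
  obtain ⟨Xa, hXa3, hXa⟩ := hA K J D0 A' hK hJ hD2 hA'0
  obtain ⟨X1, hX13, hX1⟩ := hN1 κ D0 A' hD2 hA'0
  obtain ⟨X3, hX33, hX3⟩ := hN1 (Option κ) D0 A' (by
    rw [Fintype.card_option]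
    exact hD) hA'0
  obtain ⟨X2, hX23, hX2⟩ := hN2 κ D0 A' hD2 hA'0
  have hKr : (0 : ℝ) < K := by exact_mod_cast hK
  have hKp : 0 < Kp K J := by unfold Kp; positivity
  have hD00 : 0 < D0 := lt_of_lt_of_le (by positivity) hD
  have hD0r : (0 : ℝ) < D0 := by exact_mod_cast hD00
  have hJ0 : (0 : ℝ) ≤ J := by positivity
  have haa : 0 < 11 / 10 * (J + 2 : ℝ) / (2 * Kp K J) := by positivity
  have hab : 0 < 9 / 10 / Kp K J := by positivity
  have hac : 0 < 1 / (32 * (D0 : ℝ)) := by positivity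
  -- large x
  set εs : ℝ := min (c0 / 50000 * ((J + 2) / (K : ℝ))) (((J + 2) / (10 * (K : ℝ))) ^ 2) with hεs
  have hεs0 : 0 < εs := lt_min (by positivity) (by positivity)
  have hev : ∀ᶠ x : ℝ in atTop, Xa ≤ x ∧ X1 ≤ x ∧ X2 ≤ x ∧ X3 ≤ x ∧ 3 ≤ lev x ∧
      Real.log x ≤ 82 * Real.log (lev x) ∧
      (11 / 10 * (J + 2 : ℝ) / (2 * Kp K J) * (Real.log (lev x))) ^ 2 ≤ lev x ∧
      1 ≤ 9 / 10 / Kp K J * (1 / (32 * (D0 : ℝ))) * Real.log (lev x) ∧
      2 + 2 / εs ≤ Real.log x ∧ 3 ≤ x := by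
    refine (eventually_ge_atTop Xa).and ((eventually_ge_atTop X1).and ((eventually_ge_atTop X2).and
      ((eventually_ge_atTop X3).and ((lev_tendsto.eventually_ge_atTop 3).and
      (lev_log.and ((lev_log_sq haa).and ((lev_log_large (mul_pos hab hac)).and
      ((Real.tendsto_log_atTop.eventually_ge_atTop _).and (eventually_ge_atTop 3)))))))))
  obtain ⟨X0, hX0⟩ := eventually_atTop.1 hev
  refine ⟨max X0 3, le_max_right _ _, ?_⟩
  intro x hx h W v hS hReg hWA hhA
  obtain ⟨hxa, hx1, hx2, hx3', hxR, hxl, hxA, hxB, hxL, hx3⟩ := hX0 x ((le_max_left _ _).trans hx)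
  rw [mul_assoc] at hxB
  have hlogx : 0 < Real.log x := Real.log_pos (by linarith)
  have hlogx2 : 2 ≤ Real.log x := by
    have : 0 < 2 / εs := div_pos two_pos hεs0
    linarith
  have hpowA : Real.log x ^ A0 ≤ Real.log x ^ A' :=
    Real.rpow_le_rpow_of_exponent_le (by linarith) (by linarith)
  have hWA' : (W : ℝ) ≤ Real.log x ^ A' := hWA.trans hpowA
  have hhA' : ∀ i, (h i : ℝ) ≤ Real.log x ^ A' := fun i => (hhA i).trans hpowA
  have hWr : (0 : ℝ) < W := by exact_mod_cast hS.W_pos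
  have hphi : (0 : ℝ) < W.totient := by exact_mod_cast Nat.totient_pos.2 hS.W_pos
  obtain ⟨c, hcW, hc1, hcD, hGood, hM1, hAl, hAu, hBl, hBu, hV⟩ := hXa x hxa W hReg hWA'
  have hc : 0 < c := lt_of_lt_of_le hac hcD
  set R := lev x with hRdef
  set w := wp R W with hw
  set w' := wp' R W with hw'
  set t := tp R W with ht
  set γ : Finset (PS R W) → ℝ := gam K J with hγ
  set A := A1 w γ with hAdef
  set B := B1 w γ with hBdef
  set V := V0 w t with hVdef
  set L := c * Real.log R with hLdef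
  have hlogR : 0 < Real.log R := Real.log_pos (by exact_mod_cast (by omega : 1 < R))
  have hL0 : 0 < L := mul_pos hc hlogR
  have hA0' : 0 ≤ A := A1_nonneg hGood
  have hB1 : 1 ≤ B := by
    refine le_trans ?_ hBl
    refine hxB.trans ?_
    exact mul_le_mul_of_nonneg_left (mul_le_mul_of_nonneg_right hcD hlogR.le) hab.le
  have hV0 : 0 < V := lt_of_lt_of_le (mul_pos (by norm_num) hL0) hV
  have hRr : (1 : ℝ) ≤ R := by exact_mod_cast (by omega : 1 ≤ R)
  -- the weights 1/(p-1)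
  have hpD : ∀ p : PS R W, ((K : ℝ) + 2) ≤ ((p : ℕ) : ℝ) := by
    intro p
    have h1 := PS_large hS.small p
    have h2 : K + 2 ≤ (K + 2) ^ 10 := Nat.le_self_pow (by norm_num) _
    exact_mod_cast (h2.trans hD2).trans h1
  obtain ⟨hw'0, hw'K, hww', hww2⟩ := wp_facts hpD
  have hwK : ∀ p, (K : ℝ) * w p ≤ 1 := fun p => (good_mul_le hGood p).1
  have hwK1 : ∀ p, ((Fintype.card (Option κ) : ℕ) : ℝ) * w p ≤ 1 := by
    intro p
    have h2 : ((Fintype.card (Option κ) : ℕ) : ℝ) = K + 1 := by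
      rw [Fintype.card_option]
      push_cast
      rfl
    rw [h2]
    exact (good_mul_le hGood p).2
  -- S and the error terms
  set Lx := Real.log x / (2 * W) with hLx
  have hLx0 : 0 < Lx := div_pos hlogx (mul_pos two_pos hWr)
  set S := Lx * B ^ K with hSdef
  have hS0 : 0 < S := mul_pos hLx0 (pow_pos (lt_of_lt_of_le one_pos hB1) K)
  set err : ℝ := 1 / Real.log x ^ A' with herr
  have hεlx : 2 / εs ≤ Real.log x := by linarith
  have hLxS : Lx ≤ S := by
    rw [hSdef]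
    exact le_mul_of_one_le_right hLx0.le (one_le_pow₀ hB1)
  obtain ⟨herrS, herr1, herrε⟩ := num_err hlogx2 hWr hWA hLx hLxS (show err =
    1 / Real.log x ^ (A0 + 2) from rfl) hεs0 hεlx
  have ha1 : ∀ p, ∀ i ∈ (univ : Finset κ), ∀ i' ∈ (univ : Finset κ), i ≠ i' →
      ¬ (((p : PS R W) : ℕ) : ℤ) ∣ (h i : ℤ) - h i' := by
    intro p i _ i' _ hii hdvd
    have h1 := hS.diff i i' hii p (PS_prime p) hdvd
    have h2 := p.2
    simp only [PS, mem_filter] at h2
    exact h2.2.2 h1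
  refine ⟨fun n => 1 / (n : ℝ) * sw h (lam w (yw t γ)) n, S, ?_, hS0, ?_, ?_, ?_, ?_⟩
  · exact fun n => sw_term_nonneg _ _ n
  · -- total
    have h1 := hX1 x hx1 h W v hS.W_pos hS.small hWA' (fun _ => univ) ha1 (yw t γ)
      (fun c => (yw_abs_le hGood c).trans hRr)
      (fun c hc => (yw_supp hc).trans (by norm_num)) (fun _ _ _ _ _ => mem_univ _)
    have h2 := hG1 (PS R W) κ w (yw t γ) hGood.w_nonneg hwK
    have h3 := h2.trans (energy_le hT hGood)
    have h4 := (abs_le.1 h1).2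
    have h5 : Lx * Qf (fun p => pr κ (w p)) (lam w (yw t γ)) ≤ S :=
      mul_le_mul_of_nonneg_left h3 hLx0.le
    linarith
  · -- primes
    intro m
    have h1 := hX2 x hx2 h W v hS hWA' hhA' m (yw t γ) (fun c => yw_abs_le hGood c)
      (fun c hc => yw_supp hc)
    have h2 := hG2 (PS R W) κ w w' m (yw t γ) hw'0 hw'K
    have h3 := hL (PS R W) κ w w' t γ _ _ hGood hww' hww2 hM1 m
    have h4 := h3.trans h2
    refine le_trans ?_ h1
    have h5 : c0 / 25000 * ((J + 2) / (K : ℝ)) * S ≤ c0 / (W.totient : ℝ) *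
        (1 / 2 * (A ^ 2 * B ^ (K - 1))) :=
      num_prime hK hc0 hc hphi hWr hcW hLdef hlogR hlogx hxl hB1 hAl hBu
    have h6 : c0 / (W.totient : ℝ) * (1 / 2 * (A ^ 2 * B ^ (K - 1))) ≤
        c0 / (W.totient : ℝ) * Qf (fun p => prm m (w' p)) (lam w (yw t γ)) :=
      mul_le_mul_of_nonneg_left h4 (div_pos hc0 hphi).le
    have h7 : err ≤ c0 / 50000 * ((J + 2) / (K : ℝ)) * S :=
      herrε.trans (mul_le_mul_of_nonneg_right (min_le_left _ _) hS0.le)
    have h8 : c0 / 25000 * ((J + 2) / (K : ℝ)) * S = 2 * (c0 / 50000 * ((J + 2) / (K : ℝ)) * S) := by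
      ring
    rw [h8] at h5
    linarith
  · -- pairs
    intro m m' hmm
    obtain ⟨y', hy1, hy2, hy3, hy4⟩ := hP (PS R W) κ w t γ _ _ hGood m m' hmm
    have hAR : A ^ 2 ≤ R := by
      refine le_trans (pow_le_pow_left₀ hA0' hAu 2) (le_trans ?_ hxA)
      have : L ≤ Real.log R := by
        rw [hLdef]
        calc c * Real.log R ≤ 1 * Real.log R := mul_le_mul_of_nonneg_right hc1 hlogR.le
          _ = Real.log R := one_mul _
      exact pow_le_pow_left₀ (mul_pos haa hL0).le (mul_le_mul_of_nonneg_left this haa.le) 2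
    have h1 := hX1 x hx1 h W v hS.W_pos hS.small hWA' (fun _ => univ) ha1 y'
      (fun c => (hy3 c).trans hAR) hy2 (fun _ _ _ _ _ => mem_univ _)
    have h2 := hG1 (PS R W) κ w y' hGood.w_nonneg hwK
    have h4 := (abs_le.1 h1).2
    have hK2 : 2 ≤ K := by
      rw [hKdef]
      exact Fintype.one_lt_card_iff.2 ⟨m, m', hmm⟩
    -- the weights agree
    have h5 : ∀ n ∈ (NS x W v).filter (fun n => (n + h m).Prime ∧ (n + h m').Prime),
        sw h (lam w (yw t γ)) n = sw h (lam w y') n := by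
      intro n hn
      rw [mem_filter] at hn
      have hgt := NS_gt hn.1 (by linarith)
      unfold sw
      congr 1
      refine Finset.sum_congr rfl fun c hc => ?_
      rw [mem_filter] at hc
      exact (hy1 c (cls_empty hc.2 hn.2.1 (by omega)) (cls_empty hc.2 hn.2.2 (by omega))).symm
    have h6 : ∑ n ∈ (NS x W v).filter (fun n => (n + h m).Prime ∧ (n + h m').Prime),
        1 / (n : ℝ) * sw h (lam w (yw t γ)) n ≤ ∑ n ∈ NS x W v, 1 / (n : ℝ) * sw h (lam w y') n := by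
      rw [Finset.sum_congr rfl fun n hn => by rw [h5 n hn]]
      exact Finset.sum_le_sum_of_subset_of_nonneg (Finset.filter_subset _ _)
        fun n _ _ => sw_term_nonneg _ _ n
    have h7 : Lx * Qf (fun p => pr κ (w p)) (lam w y') ≤
        ((J + 2) / (10 * (K : ℝ))) ^ 2 * S := by
      set E := ∑ c : PS R W → Option κ, ws w (supp c) * y' c ^ 2 with hE
      have e9 : E ≤ ((J + 2) / (10 * (K : ℝ))) ^ 2 * B ^ K :=
        num_pair hK2 hL0 hA0' (by linarith) hV0 hAu hBl hV hy4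
      calc Lx * Qf (fun p => pr κ (w p)) (lam w y') ≤ Lx * E :=
            mul_le_mul_of_nonneg_left h2 hLx0.le
        _ ≤ Lx * (((J + 2) / (10 * (K : ℝ))) ^ 2 * B ^ K) :=
            mul_le_mul_of_nonneg_left e9 hLx0.le
        _ = _ := by rw [hSdef]; ring
    have h8 : err ≤ ((J + 2) / (10 * (K : ℝ))) ^ 2 * S :=
      herrε.trans (mul_le_mul_of_nonneg_right (min_le_right _ _) hS0.le)
    linarith
  · -- other primes
    intro j hj
    set bad : Finset (PS R W) :=
      univ.filter (fun p : PS R W => ∃ i, (((p : PS R W) : ℕ) : ℤ) ∣ (h i : ℤ) - j) with hbad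
    obtain ⟨y', hy1, hy2, hy3, hy4⟩ := hSt (PS R W) κ w t γ _ _ hGood bad
    obtain ⟨a, ha⟩ : ∃ a : PS R W → Finset (Option κ), ∀ p o, o ∈ a p ↔ (o = none → p ∉ bad) :=
      ⟨fun p => univ.filter (fun o => o = none → p ∉ bad), fun p o => by simp⟩
    have ha2 : ∀ p, ∀ o ∈ a p, ∀ o' ∈ a p, o ≠ o' →
        ¬ (((p : PS R W) : ℕ) : ℤ) ∣ ((ext h j o : ℕ) : ℤ) - (ext h j o' : ℕ) := by
      intro p o ho o' ho' hoo
      rw [ha] at ho ho'
      cases o with
      | none =>
        cases o' with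
        | none => exact absurd rfl hoo
        | some i =>
          intro hdvd
          apply ho rfl
          rw [hbad, mem_filter]
          refine ⟨mem_univ _, i, ?_⟩
          have e1 : ((h i : ℤ) - j) = - (((ext h j none : ℕ) : ℤ) - (ext h j (some i) : ℕ)) := by
            simp [ext]
          rw [e1]
          exact (dvd_neg).2 hdvd
      | some i =>
        cases o' with
        | none =>
          intro hdvd
          apply ho' rfl
          rw [hbad, mem_filter]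
          exact ⟨mem_univ _, i, hdvd⟩
        | some i' =>
          exact ha1 p i (mem_univ _) i' (mem_univ _) (fun hh => hoo (by rw [hh]))
    have ha3 : ∀ c, y' c ≠ 0 → ∀ p o, c p = some o → o ∈ a p := by
      intro c hc p o hpo
      rw [ha]
      intro ho hp
      rw [ho] at hpo
      exact (hy2 c hc).2 p hp hpo
    have h1 := hX3 x hx3' (ext h j) W v hS.W_pos hS.small hWA' a ha2 y'
      (fun c => (hy3 c).trans hRr) (fun c hc => (hy2 c hc).1.trans (by norm_num)) ha3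
    have h2 := hG1 (PS R W) (Option κ) w y' hGood.w_nonneg hwK1
    have h4 := (abs_le.1 h1).2
    have h5 : ∀ n ∈ (NS x W v).filter (fun n => (n + j).Prime),
        sw h (lam w (yw t γ)) n = sw (ext h j) (lam w y') n := by
      intro n hn
      rw [mem_filter] at hn
      have hgt := NS_gt hn.1 (by linarith)
      exact (sw_star hn.2 (by omega) hy1).symm
    have h6 : ∑ n ∈ (NS x W v).filter (fun n => (n + j).Prime),
        1 / (n : ℝ) * sw h (lam w (yw t γ)) n ≤
        ∑ n ∈ NS x W v, 1 / (n : ℝ) * sw (ext h j) (lam w y') n := by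
      rw [Finset.sum_congr rfl fun n hn => by rw [h5 n hn]]
      exact Finset.sum_le_sum_of_subset_of_nonneg (Finset.filter_subset _ _)
        fun n _ _ => sw_term_nonneg _ _ n
    set Sg : ℝ := ∏ p ∈ (∏ i, ((h i : ℤ) - j).natAbs).primeFactors, (1 + 1 / (p : ℝ)) with hSg
    have hSg1 : 1 ≤ Sg := bad_prod_ge h j
    have hbadSg : ∏ p ∈ bad, (1 + w p) ≤ Sg :=
      bad_prod h j hj bad (fun p hp => by
        rw [hbad, mem_filter] at hp
        exact hp.2)
    set E := ∑ c : PS R W → Option (Option κ), ws w (supp c) * y' c ^ 2 with hE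
    have h7 : 9 / 10 * (1 / (32 * (D0 : ℝ)) * Real.log R) ≤ V :=
      le_trans (mul_le_mul_of_nonneg_left (mul_le_mul_of_nonneg_right hcD hlogR.le)
        (by norm_num)) hV
    have h8 : Lx * Qf (fun p => pr (Option κ) (w p)) (lam w y') + err ≤
        6000 * D0 / Real.log x * Sg * S :=
      num_star_end hD00 hV0 hlogx hxl h7 hy4 hbadSg hSg1 hB1 hLx0 h2 hSdef herrS
    linarith

end Pool.Agent.Helper1.MT
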