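import Pool.Agent.Helper1.MT.BoundsThm
import Pool.Agent.Helper1.MT.Clusters
import Pool.Agent.Helper1.MT.BlocksOf
import Pool.Agent.Helper87.MT.Tuple
import Pool.Agent.Helper87.MT.Pair
import Pool.Agent.Helper9.MT.Gram
import Pool.Agent.Helper90.MT.LowerMain
import Pool.Agent.Helper46.MT.Expand
import Pool.Agent.Helper74.MT.SumAll
import Pool.Agent.Helper74.MT.BVError
import Pool.Agent.Helper83.MT.SumPrime
import Pool.Agent.Helper55.MT.Sqfree
import Pool.Agent.Helper28.MT.OneDim
import Pool.Agent.Helper18.MT.Shifts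
import Pool.Agent.Helper16.MT.Repeated
import Pool.Agent.Helper16.MT.Approx

/-!
# Project MT: the main theorem
-/

set_option autoImplicit false

namespace Pool.Agent.Helper1.MT

theorem clusters : Clusters := by
  have hT := Pool.Agent.Helper87.MT.tupleSum
  have hE := Pool.Agent.Helper46.MT.expand
  obtain ⟨c1, hc1, hb⟩ := bounds hT Pool.Agent.Helper9.MT.gramUpper Pool.Agent.Helper9.MT.gramLower
    Pool.Agent.Helper90.MT.lowerMain (Pool.Agent.Helper87.MT.pairMajorant hT)
    (Pool.Agent.Helper74.MT.sumAll hE) (Pool.Agent.Helper83.MT.sumPrime hE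
      Pool.Agent.Helper74.MT.bvError) (Pool.Agent.Helper28.MT.oneDim Pool.Agent.Helper55.MT.sqfreeSum)
  exact clusters_of hc1 hb

theorem blocks : Blocks := blocks_of clusters Pool.Agent.Helper18.MT.shifts

theorem repeatedGaps : RepeatedGaps := Pool.Agent.Helper16.MT.repeatedGaps blocks

theorem approxAP : ApproxAP := Pool.Agent.Helper16.MT.approxAP blocks

theorem relativeAP : RelativeAP := Pool.Agent.Helper16.MT.relativeAP blocks

end Pool.Agent.Helper1.MT
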