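import Pool.Agent.Helper1.MT.BoundsUThm
import Pool.Agent.Helper1.MT.BlocksLogFinal
import Pool.Agent.Helper87.MT.Tuple
import Pool.Agent.Helper87.MT.Pair
import Pool.Agent.Helper9.MT.Gram
import Pool.Agent.Helper90.MT.LowerMain
import Pool.Agent.Helper46.MT.Expand
import Pool.Agent.Helper12.MT.Star
import Pool.Agent.Helper18.MT.SumGen
import Pool.Agent.Helper28.MT.BVErrorU
import Pool.Agent.Helper72.MT.SumPrimeU
import Pool.Agent.Helper63.MT.SqfreeU
import Pool.Agent.Helper81.MT.OneDimU
import Pool.Agent.Helper68.MT.SingAvg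
import Pool.Agent.Helper37.MT.ShiftsU
import Pool.Agent.Helper93.MT.Patterns
import Pool.Agent.Helper12.SZ.Main

/-!
# Project MT, part 2: the main theorem
-/

set_option autoImplicit false

namespace Pool.Agent.Helper1.MT

theorem blocksLog : BlocksLog := by
  have hT := Pool.Agent.Helper87.MT.tupleSum
  have hE := Pool.Agent.Helper46.MT.expand
  obtain ⟨c1, hc1, hb⟩ := boundsU hT Pool.Agent.Helper9.MT.gramUpper
    Pool.Agent.Helper9.MT.gramLower Pool.Agent.Helper90.MT.lowerMain
    (Pool.Agent.Helper87.MT.pairMajorant hT) (Pool.Agent.Helper12.MT.starMajorant hT)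
    (Pool.Agent.Helper18.MT.sumGen hE) (Pool.Agent.Helper72.MT.sumPrimeU hE
      Pool.Agent.Helper28.MT.bvErrorU) (Pool.Agent.Helper81.MT.oneDimU
      Pool.Agent.Helper63.MT.sqfreeSumU)
  exact blocksLog_of hc1 hb Pool.Agent.Helper68.MT.singAvg Pool.Agent.Helper37.MT.shiftsU

theorem patterns : Patterns :=
  Pool.Agent.Helper93.MT.patterns blocksLog fun k δ hδ => Pool.Agent.Helper52.SZ.szemeredi k δ hδ

end Pool.Agent.Helper1.MT
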